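import Pool.Agent.R414.DN.Exf

set_option autoImplicit false
set_option linter.unusedSectionVars false

/-! Lower bounds for the number of polynomials with prescribed values. -/

open Finset

namespace Pool.Agent.R414.DU

open Pool.Agent.R414.DN

lemma digits_neg (H : ℕ) (y : ℤ) (n : ℕ) (S : ℤ) :
    ((ibox (Fin (n + 1)) H).filter fun c => ∑ i : Fin (n + 1), c i * y ^ (i : ℕ) = -S).card =
    ((ibox (Fin (n + 1)) H).filter fun c => ∑ i : Fin (n + 1), c i * y ^ (i : ℕ) = S).card := by
  classical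
  refine card_bij' (fun c _ => -c) (fun c _ => -c) ?_ ?_ ?_ ?_
  · intro c hc
    rw [mem_filter, mem_ibox] at hc ⊢
    refine ⟨fun i => by rw [Pi.neg_apply, abs_neg]; exact hc.1 i, ?_⟩
    have h1 := hc.2
    simp only [Pi.neg_apply, neg_mul, sum_neg_distrib]
    linarith
  · intro c hc
    rw [mem_filter, mem_ibox] at hc ⊢
    refine ⟨fun i => by rw [Pi.neg_apply, abs_neg]; exact hc.1 i, ?_⟩
    have h1 := hc.2
    simp only [Pi.neg_apply, neg_mul, sum_neg_distrib]
    linarith
  · intro c _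
    exact neg_neg c
  · intro c _
    exact neg_neg c

/-- many representations with digits in a box -/
lemma digits_lower (H y : ℕ) (hy : 1 ≤ y) : ∀ (n : ℕ) (S : ℤ), |S| ≤ (H : ℤ) * (y : ℤ) ^ n →
    ((H + 1) / y) ^ n ≤
      ((ibox (Fin (n + 1)) H).filter fun c => ∑ i : Fin (n + 1), c i * (y : ℤ) ^ (i : ℕ) = S).card := by
  classical
  have hy0 : (0 : ℤ) < y := by exact_mod_cast hy
  intro n
  induction n with
  | zero =>
    intro S hS
    rw [pow_zero, mul_one] at hS
    rw [pow_zero, Nat.one_le_iff_ne_zero, Ne, card_eq_zero, ← Ne, ← nonempty_iff_ne_empty]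
    refine ⟨fun _ => S, ?_⟩
    rw [mem_filter, mem_ibox]
    exact ⟨fun _ => hS, by simp⟩
  | succ n ih =>
    have main : ∀ S : ℤ, 0 ≤ S → |S| ≤ (H : ℤ) * (y : ℤ) ^ (n + 1) →
        ((H + 1) / y) ^ (n + 1) ≤ ((ibox (Fin (n + 1 + 1)) H).filter fun c =>
          ∑ i : Fin (n + 1 + 1), c i * (y : ℤ) ^ (i : ℕ) = S).card := by
      intro S hS0 hS
      rw [abs_of_nonneg hS0] at hS
      obtain ⟨q, hq⟩ : ∃ q, q = (H + 1) / y := ⟨_, rfl⟩
      have hqy : q * y ≤ H + 1 := by rw [hq]; exact Nat.div_mul_le_self _ _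
      have hqy' : (q : ℤ) * y ≤ H + 1 := by exact_mod_cast hqy
      have hmod0 := Int.emod_nonneg S hy0.ne'
      have hmod1 := Int.emod_lt_of_pos S hy0
      have hdm := Int.mul_ediv_add_emod S y
      have hdiv0 : 0 ≤ S / y := Int.ediv_nonneg hS0 hy0.le
      have hdiv1 : S / y ≤ (H : ℤ) * (y : ℤ) ^ n := by
        apply Int.le_of_mul_le_mul_left _ hy0
        calc (y : ℤ) * (S / y) ≤ S := by linarith
          _ ≤ (H : ℤ) * (y : ℤ) ^ (n + 1) := hS
          _ = y * ((H : ℤ) * (y : ℤ) ^ n) := by ring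
      have hyn : (1 : ℤ) ≤ (y : ℤ) ^ n := one_le_pow₀ (by exact_mod_cast hy)
      have hHn : (H : ℤ) ≤ (H : ℤ) * (y : ℤ) ^ n := by
        have : (0 : ℤ) ≤ H := Nat.cast_nonneg _
        nlinarith
      obtain ⟨f, hf⟩ : ∃ f : ℕ → (Fin (n + 1) → ℤ) → (Fin (n + 1 + 1) → ℤ),
        f = fun (j : ℕ) (c : Fin (n + 1) → ℤ) =>
          (Fin.cons (S % (y : ℤ) + (y : ℤ) * (j : ℤ)) c : Fin (n + 1 + 1) → ℤ) := ⟨_, rfl⟩
      have hfinj : ∀ j, Function.Injective (f j) := by
        intro j c c' h
        rw [hf] at h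
        exact (Fin.cons_injective2 h).2
      have hsub : ((range q).biUnion fun j =>
          (((ibox (Fin (n + 1)) H).filter fun c =>
            ∑ i : Fin (n + 1), c i * (y : ℤ) ^ (i : ℕ) = S / y - j).image (f j))) ⊆
          (ibox (Fin (n + 1 + 1)) H).filter fun c => ∑ i : Fin (n + 1 + 1), c i * (y : ℤ) ^ (i : ℕ) = S := by
        intro c hc
        rw [mem_biUnion] at hc
        obtain ⟨j, hj, hc⟩ := hc
        rw [mem_range] at hj
        rw [mem_image] at hc
        obtain ⟨c', hc', rfl⟩ := hc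
        rw [mem_filter, mem_ibox] at hc' ⊢
        have hj' : (j : ℤ) + 1 ≤ q := by exact_mod_cast hj
        have hj0 : (0 : ℤ) ≤ j := Nat.cast_nonneg _
        have hb : S % y + y * j ≤ H := by nlinarith
        constructor
        · intro i
          rw [hf]
          refine Fin.cases ?_ (fun i => ?_) i
          · simp only [Fin.cons_zero]
            rw [abs_of_nonneg (by positivity)]
            exact hb
          · simp only [Fin.cons_succ]
            exact hc'.1 i
        · rw [Fin.sum_univ_succ, hf]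
          simp only [Fin.cons_zero, Fin.val_zero, pow_zero, mul_one, Fin.cons_succ, Fin.val_succ]
          have h1 : ∑ i : Fin (n + 1), c' i * (y : ℤ) ^ ((i : ℕ) + 1) =
              y * ∑ i : Fin (n + 1), c' i * (y : ℤ) ^ (i : ℕ) := by
            rw [mul_sum]
            refine sum_congr rfl fun i _ => ?_
            ring
          rw [h1, hc'.2]
          linarith
      have hdisj : ((range q : Finset ℕ) : Set ℕ).PairwiseDisjoint fun j =>
          (((ibox (Fin (n + 1)) H).filter fun c =>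
            ∑ i : Fin (n + 1), c i * (y : ℤ) ^ (i : ℕ) = S / y - j).image (f j)) := by
        intro j _ j' _ hjj
        rw [Function.onFun, Finset.disjoint_left]
        intro c hc hc'
        rw [mem_image] at hc hc'
        obtain ⟨a, -, ha⟩ := hc
        obtain ⟨a', -, ha'⟩ := hc'
        apply hjj
        rw [← ha', hf] at ha
        have h1 := congrFun ha 0
        simp only [Fin.cons_zero] at h1
        have h2 : (y : ℤ) * j = y * j' := by linarith
        have h3 := Int.eq_of_mul_eq_mul_left hy0.ne' h2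
        exact_mod_cast h3
      refine le_trans ?_ (card_le_card hsub)
      rw [card_biUnion hdisj, ← hq]
      have hterm : ∀ j ∈ range q, q ^ n ≤ (((ibox (Fin (n + 1)) H).filter fun c =>
            ∑ i : Fin (n + 1), c i * (y : ℤ) ^ (i : ℕ) = S / y - j).image (f j)).card := by
        intro j hj
        rw [mem_range] at hj
        rw [card_image_of_injective _ (hfinj j), hq]
        apply ih
        have hj' : (j : ℤ) + 1 ≤ q := by exact_mod_cast hj
        have hj0 : (0 : ℤ) ≤ j := Nat.cast_nonneg _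
        have hqH : (q : ℤ) ≤ H + 1 := by
          have h1 : (1 : ℤ) ≤ y := by exact_mod_cast hy
          nlinarith
        rw [abs_le]
        constructor <;> linarith
      calc q ^ (n + 1) = ∑ _j ∈ range q, q ^ n := by
            rw [sum_const, card_range, smul_eq_mul, pow_succ']
        _ ≤ _ := sum_le_sum hterm
    intro S hS
    rcases le_total 0 S with h0 | h0
    · exact main S h0 hS
    · rw [← neg_neg S, digits_neg]
      apply main (-S) (by linarith)
      rw [abs_neg]
      exact hS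

variable {e : ℕ}

/-- the value as a sum over the indices -/
lemma Fv_sum (a : Cf e) (x y : ℤ) :
    Fv (co a) e x y = ∑ p : ↥(I e), a p * (x ^ p.1.2 * y ^ (p.1.1 - p.1.2)) := by
  unfold Fv
  rw [← sum_I (fun k i => co a k i * (x ^ i * y ^ (k - i)))]
  refine sum_congr rfl fun p _ => ?_
  rw [co_of_mem a p.2]

lemma Fv_abs_le {a : Cf e} {H : ℕ} (ha : a ∈ ibox ↥(I e) H) {x y : ℤ} (hy : 1 ≤ y)
    (hxy : |x| ≤ y) : |Fv (co a) e x y| ≤ (H : ℤ) * MM e * y ^ e := by
  rw [Fv_sum]
  refine (abs_sum_le_sum_abs _ _).trans ?_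
  have h1 : ∀ p ∈ (univ : Finset ↥(I e)), |a p * (x ^ p.1.2 * y ^ (p.1.1 - p.1.2))| ≤
      (H : ℤ) * y ^ e := by
    intro p _
    have hp := mem_I.1 p.2
    rw [abs_mul, abs_mul, abs_pow, abs_pow, abs_of_pos (by linarith : 0 < y)]
    have h2 : |x| ^ p.1.2 * y ^ (p.1.1 - p.1.2) ≤ y ^ e := by
      calc |x| ^ p.1.2 * y ^ (p.1.1 - p.1.2) ≤ y ^ p.1.2 * y ^ (p.1.1 - p.1.2) := by
            have : |x| ^ p.1.2 ≤ y ^ p.1.2 := pow_le_pow_left₀ (abs_nonneg _) hxy _
            exact mul_le_mul_of_nonneg_right this (by positivity)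
        _ = y ^ p.1.1 := by
            rw [← pow_add]
            congr 1
            omega
        _ ≤ y ^ e := pow_le_pow_right₀ hy hp.1
    exact mul_le_mul (mem_ibox.1 ha p) h2 (by positivity) (by positivity)
  refine (sum_le_card_nsmul _ _ _ h1).trans (le_of_eq ?_)
  rw [card_univ, nsmul_eq_mul]
  show (MM e : ℤ) * _ = _
  ring

/-- **Many polynomials with a prescribed value.** -/
theorem card_value {H y : ℕ} (hy : 1 ≤ y) {x s : ℤ} (hxy : |x| ≤ y)
    (hs : 2 * |s| ≤ (H : ℤ) * (y : ℤ) ^ e) :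
    (2 * (H / (2 * MM e)) + 1) ^ (MM e - (e + 1)) * ((H + 1) / y) ^ e ≤
      ((ibox ↥(I e) H).filter fun a => Fv (co a) e x y = s).card := by
  classical
  have hM := MM_pos e
  obtain ⟨h, hh⟩ : ∃ h, h = H / (2 * MM e) := ⟨_, rfl⟩
  have hhH : h * (2 * MM e) ≤ H := by rw [hh]; exact Nat.div_mul_le_self _ _
  have hhH' : (h : ℤ) * (2 * MM e) ≤ H := by exact_mod_cast hhH
  have hle : h ≤ H := by
    refine le_trans ?_ hhH
    exact Nat.le_mul_of_pos_right _ (by omega)
  have hy0 : (0 : ℤ) < y := by exact_mod_cast hy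
  rw [← hh]
  obtain ⟨F, hF⟩ : ∃ F : Cf e → (Fin (e + 1) → ℤ) → Cf e, F = fun o c p =>
    if hp : p.1.2 = 0 then c ⟨p.1.1, by have := mem_I.1 p.2; omega⟩ else o p := ⟨_, rfl⟩
  have hFv : ∀ o ∈ ibox0 h (JJ e), ∀ c : Fin (e + 1) → ℤ,
      Fv (co (F o c)) e x y = Fv (co o) e x y + ∑ i, c i * (y : ℤ) ^ (i : ℕ) := by
    intro o ho c
    have ho' := mem_ibox0.1 ho
    have h1 : ∀ p : ↥(I e), F o c p = o p + (if hp : p.1.2 = 0 then
        c ⟨p.1.1, by have := mem_I.1 p.2; omega⟩ else 0) := by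
      intro p
      rw [hF]
      by_cases hp : p.1.2 = 0
      · simp only [dif_pos hp]
        rw [(ho' p).2 (by unfold JJ; rw [mem_filter]; exact ⟨mem_univ _, hp⟩), zero_add]
      · simp only [dif_neg hp]
        rw [add_zero]
    rw [Fv_sum, Fv_sum]
    have h2 : ∑ p : ↥(I e), F o c p * (x ^ p.1.2 * (y : ℤ) ^ (p.1.1 - p.1.2)) =
        ∑ p : ↥(I e), o p * (x ^ p.1.2 * (y : ℤ) ^ (p.1.1 - p.1.2)) +
        ∑ p : ↥(I e), (if hp : p.1.2 = 0 then
        c ⟨p.1.1, by have := mem_I.1 p.2; omega⟩ else 0) *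
          (x ^ p.1.2 * (y : ℤ) ^ (p.1.1 - p.1.2)) := by
      rw [← sum_add_distrib]
      refine sum_congr rfl fun p _ => ?_
      rw [h1]
      ring
    rw [h2]
    congr 1
    rw [← sum_subset (subset_univ (JJ e))]
    · refine sum_bij' (fun p hp => (⟨p.1.1, by have := mem_I.1 p.2; omega⟩ : Fin (e + 1)))
        (fun i _ => ip e i (by omega)) ?_ ?_ ?_ ?_ ?_
      · intro p _
        exact mem_univ _
      · intro i _
        unfold JJ
        rw [mem_filter]
        exact ⟨mem_univ _, rfl⟩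
      · intro p hp
        unfold JJ at hp
        rw [mem_filter] at hp
        apply Subtype.ext
        apply Prod.ext
        · rfl
        · exact hp.2.symm
      · intro i _
        rfl
      · intro p hp
        unfold JJ at hp
        rw [mem_filter] at hp
        have h3 : x ^ p.1.2 * (y : ℤ) ^ (p.1.1 - p.1.2) = (y : ℤ) ^ p.1.1 := by
          rw [hp.2, pow_zero, one_mul, Nat.sub_zero]
        rw [dif_pos hp.2, h3]
    · intro p _ hp
      have hp' : ¬ p.1.2 = 0 := by
        intro h3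
        apply hp
        unfold JJ
        rw [mem_filter]
        exact ⟨mem_univ _, h3⟩
      rw [dif_neg hp', zero_mul]
  have hsub : ((ibox0 h (JJ e)).biUnion fun o =>
      ((ibox (Fin (e + 1)) H).filter fun c => ∑ i : Fin (e + 1), c i * (y : ℤ) ^ (i : ℕ) =
        s - Fv (co o) e x y).image (F o)) ⊆
      (ibox ↥(I e) H).filter fun a => Fv (co a) e x y = s := by
    intro a ha
    rw [mem_biUnion] at ha
    obtain ⟨o, ho, ha⟩ := ha
    rw [mem_image] at ha
    obtain ⟨c, hc, rfl⟩ := ha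
    rw [mem_filter, mem_ibox] at hc
    rw [mem_filter, mem_ibox]
    constructor
    · intro p
      rw [hF]
      simp only
      split_ifs with hp
      · exact hc.1 _
      · have h1 := ((mem_ibox0.1 ho) p).1
        have h2 : (h : ℤ) ≤ H := by exact_mod_cast hle
        linarith
    · rw [hFv o ho, hc.2]
      ring
  have hdisj : ((ibox0 h (JJ e) : Finset (Cf e)) : Set (Cf e)).PairwiseDisjoint fun o =>
      ((ibox (Fin (e + 1)) H).filter fun c => ∑ i : Fin (e + 1), c i * (y : ℤ) ^ (i : ℕ) =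
        s - Fv (co o) e x y).image (F o) := by
    intro o ho o' ho' hne
    rw [Function.onFun, Finset.disjoint_left]
    intro a ha ha'
    rw [mem_image] at ha ha'
    obtain ⟨c, -, hc⟩ := ha
    obtain ⟨c', -, hc'⟩ := ha'
    apply hne
    rw [mem_coe] at ho ho'
    have h1 := mem_ibox0.1 ho
    have h2 := mem_ibox0.1 ho'
    funext p
    by_cases hp : p ∈ JJ e
    · rw [(h1 p).2 hp, (h2 p).2 hp]
    · have hp' : ¬ p.1.2 = 0 := by
        intro h3
        apply hp
        unfold JJ
        rw [mem_filter]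
        exact ⟨mem_univ _, h3⟩
      have h3 := congrFun (hc.trans hc'.symm) p
      rw [hF] at h3
      simp only [dif_neg hp'] at h3
      exact h3
  refine le_trans ?_ (card_le_card hsub)
  rw [card_biUnion hdisj]
  have hcard0 := card_ibox0 (ι := ↥(I e)) h (JJ e)
  rw [card_JJ] at hcard0
  have hMM : MM e = Fintype.card ↥(I e) := rfl
  rw [hMM, ← hcard0, ← smul_eq_mul, ← sum_const]
  apply sum_le_sum
  intro o ho
  have hinj : Function.Injective (F o) := by
    intro c c' hcc
    funext i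
    have h3 := congrFun hcc (ip e i (by omega))
    rw [hF] at h3
    exact h3
  rw [card_image_of_injective _ hinj]
  apply digits_lower H y hy
  have h1 : o ∈ ibox ↥(I e) h := mem_ibox.2 fun p => ((mem_ibox0.1 ho) p).1
  have h2 := Fv_abs_le h1 (by exact_mod_cast hy : (1 : ℤ) ≤ y) hxy
  have h3 : 2 * ((h : ℤ) * MM e * (y : ℤ) ^ e) ≤ H * (y : ℤ) ^ e := by
    have : (0 : ℤ) ≤ (y : ℤ) ^ e := by positivity
    nlinarith
  have h4 := abs_sub s (Fv (co o) e x y)
  linarith

/-- polynomials with two prescribed values -/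
theorem card_two_values (he : 1 ≤ e) {H : ℕ} {x y s x' y' s' : ℤ} (hne : (x, y) ≠ (x', y')) :
    ((ibox ↥(I e) H).filter fun a => Fv (co a) e x y = s ∧ Fv (co a) e x' y' = s').card ≤
      (2 * H + 1) ^ (MM e - 2) := by
  classical
  obtain ⟨q0, hq0⟩ : ∃ q0 : ↥(I e), q0.1 = (0, 0) :=
    ⟨⟨(0, 0), by rw [mem_I]; exact ⟨Nat.zero_le _, le_rfl⟩⟩, rfl⟩
  obtain ⟨q1, hq1, hq⟩ : ∃ q1 : ↥(I e), q1 ≠ q0 ∧
      x ^ q1.1.2 * y ^ (q1.1.1 - q1.1.2) ≠ x' ^ q1.1.2 * y' ^ (q1.1.1 - q1.1.2) := by
    by_cases hx : x = x'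
    · refine ⟨⟨(1, 0), by rw [mem_I]; omega⟩, ?_, ?_⟩
      · intro h
        rw [← h] at hq0
        simp at hq0
      · simp only [pow_zero, one_mul, Nat.sub_zero, pow_one]
        intro hy
        exact hne (Prod.ext hx hy)
    · refine ⟨⟨(1, 1), by rw [mem_I]; omega⟩, ?_, ?_⟩
      · intro h
        rw [← h] at hq0
        simp at hq0
      · simpa using hx
  have key := card_fiber (H := H)
    (S := (ibox ↥(I e) H).filter fun a => Fv (co a) e x y = s ∧ Fv (co a) e x' y' = s')
    (filter_subset _ _) {q1, q0} 1 ?_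
  · rw [card_pair hq1, one_mul] at key
    exact key
  intro b T hT hTb
  rw [card_le_one]
  intro a ha a' ha'
  have h1 := (mem_filter.1 (hT ha)).2
  have h2 := (mem_filter.1 (hT ha')).2
  have hdiff : ∀ u v : ℤ, Fv (co a) e u v - Fv (co a') e u v =
      (a q1 - a' q1) * (u ^ q1.1.2 * v ^ (q1.1.1 - q1.1.2)) + (a q0 - a' q0) := by
    intro u v
    rw [Fv_sum, Fv_sum, ← sum_sub_distrib, ← sum_subset (subset_univ {q1, q0})]
    · rw [sum_pair hq1, hq0]
      simp only [pow_zero, Nat.sub_self, mul_one]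
      ring
    · intro p _ hp
      rw [hTb a ha p hp, hTb a' ha' p hp, sub_self]
  have e1 := hdiff x y
  have e2 := hdiff x' y'
  rw [h1.1, h2.1, sub_self] at e1
  rw [h1.2, h2.2, sub_self] at e2
  have e3 : (a q1 - a' q1) * (x ^ q1.1.2 * y ^ (q1.1.1 - q1.1.2) -
      x' ^ q1.1.2 * y' ^ (q1.1.1 - q1.1.2)) = 0 := by
    rw [mul_sub]
    linarith
  have e4 : a q1 - a' q1 = 0 := by
    rcases mul_eq_zero.1 e3 with h | h
    · exact h
    · exact absurd (sub_eq_zero.1 h) hq
  rw [e4, zero_mul, zero_add] at e1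
  funext p
  by_cases hp : p ∈ ({q1, q0} : Finset ↥(I e))
  · rw [mem_insert, mem_singleton] at hp
    rcases hp with rfl | rfl
    · linarith
    · linarith
  · rw [hTb a ha p hp, hTb a' ha' p hp]

/-- lower bound for unions -/
lemma card_union_lower {α β : Type} [DecidableEq α] [DecidableEq β] (P : Finset α)
    (A : α → Finset β) (m M : ℝ) (hm : ∀ p ∈ P, m ≤ (A p).card)
    (hM : ∀ p ∈ P, ∀ q ∈ P, p ≠ q → ((A p ∩ A q).card : ℝ) ≤ M) (hM0 : 0 ≤ M) :
    P.card * m - (P.card : ℝ) ^ 2 * M ≤ ((P.biUnion A).card : ℝ) := by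
  classical
  obtain ⟨B, hB⟩ : ∃ B : α → Finset β, B = fun p => A p \ (P.erase p).biUnion A := ⟨_, rfl⟩
  have hsub : P.biUnion B ⊆ P.biUnion A := by
    apply biUnion_mono
    intro p _
    rw [hB]
    exact sdiff_subset
  have hdisj : ((P : Finset α) : Set α).PairwiseDisjoint B := by
    intro p hp q hq hpq
    rw [Function.onFun, Finset.disjoint_left]
    intro x hx hx'
    rw [hB] at hx hx'
    rw [mem_sdiff] at hx hx'
    apply hx.2
    rw [mem_biUnion]
    exact ⟨q, mem_erase.2 ⟨Ne.symm hpq, hq⟩, hx'.1⟩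
  have h1 : ((P.biUnion B).card : ℝ) ≤ (P.biUnion A).card := by
    exact_mod_cast card_le_card hsub
  refine le_trans ?_ h1
  rw [card_biUnion hdisj]
  push_cast
  have h2 : ∀ p ∈ P, m - P.card * M ≤ ((B p).card : ℝ) := by
    intro p hp
    have h3 : (A p).card ≤ (B p).card + ((P.erase p).biUnion fun q => A p ∩ A q).card := by
      have h4 : A p ⊆ B p ∪ (P.erase p).biUnion fun q => A p ∩ A q := by
        intro x hx
        rw [mem_union]
        by_cases h5 : x ∈ (P.erase p).biUnion A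
        · right
          rw [mem_biUnion] at h5 ⊢
          obtain ⟨q, hq, hxq⟩ := h5
          exact ⟨q, hq, mem_inter.2 ⟨hx, hxq⟩⟩
        · left
          rw [hB]
          exact mem_sdiff.2 ⟨hx, h5⟩
      exact (card_le_card h4).trans (card_union_le _ _)
    have h6 : (((P.erase p).biUnion fun q => A p ∩ A q).card : ℝ) ≤ P.card * M := by
      have h7 : (((P.erase p).biUnion fun q => A p ∩ A q).card : ℝ) ≤
          ∑ q ∈ P.erase p, ((A p ∩ A q).card : ℝ) := by
        exact_mod_cast card_biUnion_le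
      refine h7.trans ?_
      have h8 := sum_le_card_nsmul (P.erase p) (fun q => ((A p ∩ A q).card : ℝ)) M (by
        intro q hq
        rw [mem_erase] at hq
        exact hM p hp q hq.2 (Ne.symm hq.1))
      refine h8.trans ?_
      rw [nsmul_eq_mul]
      have h9 : ((P.erase p).card : ℝ) ≤ P.card := by
        exact_mod_cast card_le_card (erase_subset p P)
      gcongr
    have h10 : ((A p).card : ℝ) ≤ (B p).card + (((P.erase p).biUnion fun q => A p ∩ A q).card : ℝ) := by
      exact_mod_cast h3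
    have := hm p hp
    linarith
  have h11 := card_nsmul_le_sum P (fun p => ((B p).card : ℝ)) _ h2
  rw [nsmul_eq_mul] at h11
  refine le_trans (le_of_eq ?_) h11
  ring

end Pool.Agent.R414.DU
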