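import Pool.Agent.R414.DU.Ty
import Pool.Agent.R414.DU.Lw

set_option autoImplicit false
set_option linter.unusedSectionVars false

/-! The bounds for the curves with a point outside of a box. -/

open Finset

namespace Pool.Agent.R414.DU

open Pool.Agent.R414.DN Pool.Agent.R414.DS Pool.Agent.R414.DT

lemma Fv_zero {d : ℕ} {a : Cf d} (h0 : co a 0 0 = 0) : Fv (co a) d 0 0 = 0 := by
  unfold Fv
  rw [sum_eq_single_of_mem 0 (mem_range.2 (Nat.succ_pos d))]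
  · simp [h0]
  · intro k _ hk
    apply sum_eq_zero
    intro i hi
    rw [mem_range] at hi
    rcases Nat.eq_zero_or_pos i with h1 | h1
    · rw [h1, Nat.sub_zero, zero_pow hk, mul_zero, mul_zero]
    · rw [zero_pow h1.ne', zero_mul, mul_zero]

lemma Fv_origin {d : ℕ} (a : Cf d) : Fv (co a) d 0 0 = co a 0 0 := by
  unfold Fv
  rw [sum_eq_single_of_mem 0 (mem_range.2 (Nat.succ_pos d))]
  · simp
  · intro k _ hk
    apply sum_eq_zero
    intro i hi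
    rw [mem_range] at hi
    rcases Nat.eq_zero_or_pos i with h1 | h1
    · rw [h1, Nat.sub_zero, zero_pow hk, mul_zero, mul_zero]
    · rw [zero_pow h1.ne', zero_mul, mul_zero]

lemma coeff_LF {d : ℕ} (a : Cf d) (m : Fin 2 →₀ ℕ) :
    (LF a).coeff m = if m 0 + m 1 = d then ((co a d (m 0) : ℤ) : ℚ) else 0 := by
  unfold LF
  have h1 : m.degree = m 0 + m 1 := by rw [Finsupp.degree_eq_sum, Fin.sum_univ_two]
  rw [MvPolynomial.coeff_map, MvPolynomial.coeff_homogeneousComponent, h1]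
  split_ifs with h
  · rw [coeff_poly, h]
    rfl
  · simp

lemma LF_swV {d : ℕ} (a : Cf d) :
    LF (swV a) = MvPolynomial.renameEquiv ℚ (Equiv.swap (0 : Fin 2) 1) (LF a) := by
  ext m
  obtain ⟨m', hm'⟩ : ∃ m' : Fin 2 →₀ ℕ, m' = m.mapDomain (Equiv.swap (0 : Fin 2) 1) := ⟨_, rfl⟩
  have h0 : m' 0 = m 1 := by
    rw [hm', Finsupp.mapDomain_equiv_apply]
    simp
  have h1 : m' 1 = m 0 := by
    rw [hm', Finsupp.mapDomain_equiv_apply]
    simp
  have hm : m = m'.mapDomain (Equiv.swap (0 : Fin 2) 1) := by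
    ext i
    rw [Finsupp.mapDomain_equiv_apply]
    fin_cases i
    · simpa using h1.symm
    · simpa using h0.symm
  have h2 : (MvPolynomial.renameEquiv ℚ (Equiv.swap (0 : Fin 2) 1) (LF a)).coeff m =
      (LF a).coeff m' := by
    rw [MvPolynomial.renameEquiv_apply]
    nth_rewrite 1 [hm]
    exact MvPolynomial.coeff_rename_mapDomain _ (Equiv.injective _) _ _
  rw [h2, coeff_LF, coeff_LF, h0, h1]
  by_cases h : m 0 + m 1 = d
  · rw [if_pos h, if_pos (by omega), co_swV a (by rw [mem_I]; omega)]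
    congr 2
    omega
  · rw [if_neg h, if_neg (by omega)]

lemma QF_swV {d H : ℕ} {a b : Cf d} (ha : a ∈ QF b H) : swV a ∈ QF (swV b) H := by
  rw [mem_QF] at ha ⊢
  refine ⟨swV_mem ha.1, fun i => ?_⟩
  by_cases hmem : (d, i) ∈ I d
  · rw [co_swV a hmem, co_swV b hmem]
    exact ha.2 _
  · unfold co
    rw [dif_neg hmem, dif_neg hmem]

/-- both charts -/
theorem card_both_tail {d : ℕ} {b : Cf d} (hd : 10 ≤ d) (hb : Irreducible (LF b)) (V : ℕ) :
    ∃ C : ℝ, 0 ≤ C ∧ ∀ T H : ℕ, 1 ≤ H → ∀ S : Finset (Cf d), S ⊆ QF b H →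
    (∀ a ∈ S, ∃ x y : ℤ, Fv (co a) d x y = 0 ∧ T < max x.natAbs y.natAbs) →
    (S.card : ℝ) ≤ (24 * 2 ^ d / ((T : ℝ) + 1) ^ (d - 3) + 2 * (d / (V + 1)) + C / Real.sqrt H) *
      (2 * (H : ℝ) + 1) ^ (MM d - (d + 1) - 1) := by
  classical
  have hb' : Irreducible (LF (swV b)) := by
    rw [LF_swV]
    exact (MulEquiv.irreducible_iff
      (MvPolynomial.renameEquiv ℚ (Equiv.swap (0 : Fin 2) 1))).2 hb
  obtain ⟨C1, hC1, h1⟩ := card_y_tail hd (lead_of_irr (by omega) hb) V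
  obtain ⟨C2, hC2, h2⟩ := card_y_tail hd (lead_of_irr (by omega) hb') V
  refine ⟨C1 + C2, add_nonneg hC1 hC2, fun T H hH S hS hz => ?_⟩
  have hsub : S ⊆ S.filter (fun a => ∃ x y : ℤ, Fv (co a) d x y = 0 ∧ |x| ≤ |y| ∧ T < y.natAbs) ∪
      S.filter (fun a => ∃ x y : ℤ, Fv (co (swV a)) d x y = 0 ∧ |x| ≤ |y| ∧ T < y.natAbs) := by
    intro a ha
    rw [mem_union, mem_filter, mem_filter]
    obtain ⟨x, y, h0, hT⟩ := hz a ha
    rcases le_total |x| |y| with h | h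
    · have h' : x.natAbs ≤ y.natAbs := by
        rw [Int.abs_eq_natAbs, Int.abs_eq_natAbs] at h
        exact_mod_cast h
      rw [max_eq_right h'] at hT
      exact Or.inl ⟨ha, x, y, h0, h, hT⟩
    · have h' : y.natAbs ≤ x.natAbs := by
        rw [Int.abs_eq_natAbs, Int.abs_eq_natAbs] at h
        exact_mod_cast h
      rw [max_eq_left h'] at hT
      exact Or.inr ⟨ha, y, x, by rw [Fv_swV]; exact h0, h, hT⟩
  have b1 := h1 T H hH
    (S.filter (fun a => ∃ x y : ℤ, Fv (co a) d x y = 0 ∧ |x| ≤ |y| ∧ T < y.natAbs))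
    ((filter_subset _ _).trans hS) (fun a ha => (mem_filter.1 ha).2)
  have b2 := h2 T H hH
    ((S.filter (fun a => ∃ x y : ℤ, Fv (co (swV a)) d x y = 0 ∧ |x| ≤ |y| ∧
      T < y.natAbs)).image swV)
    (by
      intro c hc
      rw [mem_image] at hc
      obtain ⟨a, ha, rfl⟩ := hc
      exact QF_swV (hS (mem_filter.1 ha).1))
    (by
      intro c hc
      rw [mem_image] at hc
      obtain ⟨a, ha, rfl⟩ := hc
      exact (mem_filter.1 ha).2)
  rw [card_image_of_injective _ swV_inj] at b2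
  have h3 := (Nat.cast_le (α := ℝ)).2 ((card_le_card hsub).trans (card_union_le _ _))
  push_cast at h3
  refine h3.trans ((add_le_add b1 b2).trans (le_of_eq ?_))
  have e1 : (2 : ℝ) ^ d = 2 * 2 ^ (d - 1) := by
    rw [← pow_succ']
    congr 1
    omega
  rw [e1]
  ring

lemma pow_shift {n h0 H : ℕ} (hH : 2 * n * h0 ≤ H) :
    (2 * (((H + h0 : ℕ)) : ℝ) + 1) ^ n ≤ 3 * (2 * (H : ℝ) + 1) ^ n := by
  obtain ⟨X, hX⟩ : ∃ X : ℝ, X = 2 * (H : ℝ) + 1 := ⟨_, rfl⟩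
  have hH0 : (0 : ℝ) ≤ H := Nat.cast_nonneg H
  have hX0 : 0 < X := by rw [hX]; linarith
  have e1 : 2 * (((H + h0 : ℕ)) : ℝ) + 1 = X * (1 + 2 * h0 / X) := by
    rw [hX]
    push_cast
    field_simp
    ring
  rw [e1, ← hX, mul_pow, mul_comm]
  apply mul_le_mul_of_nonneg_right _ (by positivity)
  have h1 : (1 + 2 * (h0 : ℝ) / X) ≤ Real.exp (2 * h0 / X) := by
    have := Real.add_one_le_exp (2 * (h0 : ℝ) / X)
    linarith
  have h2 : (1 + 2 * (h0 : ℝ) / X) ^ n ≤ Real.exp 1 := by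
    calc (1 + 2 * (h0 : ℝ) / X) ^ n ≤ Real.exp (2 * h0 / X) ^ n := by
          apply pow_le_pow_left₀ (by positivity) h1
      _ = Real.exp (n * (2 * h0 / X)) := by rw [← Real.exp_nat_mul]
      _ ≤ Real.exp 1 := by
          apply Real.exp_le_exp.2
          rw [mul_div_assoc', div_le_one hX0]
          have h3 : (2 : ℝ) * n * h0 ≤ H := by exact_mod_cast hH
          rw [hX]
          linarith
  have h3 := Real.exp_one_lt_d9
  linarith

section

variable {e : ℕ} {φ : MvPolynomial (Fin 2) ℤ}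

/-- the constant of the upper bound -/
noncomputable def K2 (d : ℕ) : ℝ := 3 * (24 * 2 ^ d + 2)

/-- **Upper bound.** -/
theorem upper_tail (he : 9 ≤ e) (hφ : φ.IsHomogeneous (e + 1))
    (hirr : Irreducible (MvPolynomial.map (Int.castRingHom ℚ) φ)) (T : ℕ) :
    ∃ H₀ : ℕ, ∀ H : ℕ, H₀ ≤ H → ∀ S : Finset (Cf e), S ⊆ ibox ↥(I e) H →
      (∀ r ∈ S, ∃ x y : ℤ, MvPolynomial.eval ![x, y] (φ + poly r) = 0 ∧
        T < max x.natAbs y.natAbs) →
      (S.card : ℝ) ≤ K2 (e + 1) / ((T : ℝ) + 1) ^ (e - 2) * (2 * (H : ℝ) + 1) ^ (MM e - 1) := by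
  classical
  have hφd : φ.totalDegree ≤ e + 1 := hφ.totalDegree_le
  obtain ⟨h0, hh0⟩ : ∃ h0 : ℕ, ∀ m, |φ.coeff m| ≤ (h0 : ℤ) := by
    refine ⟨∑ m ∈ φ.support, (φ.coeff m).natAbs, fun m => ?_⟩
    by_cases hm : m ∈ φ.support
    · rw [Int.abs_eq_natAbs]
      exact_mod_cast single_le_sum (f := fun m => (φ.coeff m).natAbs) (fun _ _ => Nat.zero_le _) hm
    · rw [MvPolynomial.notMem_support_iff.1 hm, abs_zero]
      positivity
  obtain ⟨b, hbbox, hb⟩ := exists_vec hφd hh0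
  have hLFb : Irreducible (LF b) := by
    unfold LF
    rw [hb, MvPolynomial.homogeneousComponent_of_mem hφ, if_pos rfl]
    exact hirr
  obtain ⟨u, hu⟩ : ∃ u : ℝ, u = ((T : ℝ) + 1) ^ (e - 2) := ⟨_, rfl⟩
  have hT0 : (0 : ℝ) ≤ T := Nat.cast_nonneg T
  have hu1 : 1 ≤ u := by
    rw [hu]
    exact one_le_pow₀ (by linarith)
  have hu0 : 0 < u := by linarith
  obtain ⟨V, hV⟩ : ∃ V : ℕ, V = ⌈2 * ((e + 1 : ℕ) : ℝ) * u⌉₊ := ⟨_, rfl⟩
  have hV1 : 2 * ((e + 1 : ℕ) : ℝ) * u ≤ V := by rw [hV]; exact Nat.le_ceil _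
  obtain ⟨C, hC, hmain⟩ := card_both_tail (by omega : 10 ≤ e + 1) hLFb V
  have hMM2 : MM (e + 1) - (e + 1 + 1) = MM e := by
    rw [MM_eq, MM_eq]
    have h1 : (e + 1 + 1) * (e + 1 + 2) = (e + 1) * (e + 2) + 2 * (e + 1 + 1) := by ring
    rw [h1]
    omega
  rw [hMM2] at hmain
  have e3 : e + 1 - 3 = e - 2 := by omega
  rw [e3] at hmain
  obtain ⟨Ψ, hΨ⟩ : ∃ Ψ : Cf e → Cf (e + 1), Ψ = fun r p => b p + co r p.1.1 p.1.2 := ⟨_, rfl⟩
  have hco : ∀ r : Cf e, ∀ k i, co (Ψ r) k i = co b k i + co r k i := by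
    intro r k i
    by_cases hmem : (k, i) ∈ I (e + 1)
    · rw [co_of_mem _ hmem, co_of_mem b hmem, hΨ]
    · have hmem' : (k, i) ∉ I e := by
        rw [mem_I] at hmem ⊢
        omega
      unfold co
      rw [dif_neg hmem, dif_neg hmem, dif_neg hmem', add_zero]
  have hpoly : ∀ r : Cf e, poly (Ψ r) = φ + poly r := by
    intro r
    ext m
    rw [MvPolynomial.coeff_add, ← hb, coeff_poly, coeff_poly, coeff_poly, hco]
  have hΨinj : Function.Injective Ψ := by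
    intro r r' h
    have h1 := hpoly r
    rw [h, hpoly r'] at h1
    exact poly_inj (add_left_cancel h1).symm
  have hΨQ : ∀ H, ∀ r ∈ ibox ↥(I e) H, Ψ r ∈ QF b (H + h0) := by
    intro H r hr
    rw [mem_QF, mem_ibox]
    constructor
    · intro p
      rw [hΨ]
      simp only
      have h1 : |b p| ≤ h0 := by
        have := mem_ibox.1 hbbox p
        exact this
      have h2 := co_le hr p.1.1 p.1.2
      have h3 := abs_add_le (b p) (co r p.1.1 p.1.2)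
      push_cast
      linarith
    · intro i
      rw [hco]
      have hmem' : (e + 1, i) ∉ I e := by
        rw [mem_I]
        omega
      have h1 : co r (e + 1) i = 0 := by
        unfold co
        rw [dif_neg hmem']
      rw [h1, add_zero]
  obtain ⟨W, hW⟩ : ∃ W : ℕ, W = ⌈(C * u) ^ 2⌉₊ := ⟨_, rfl⟩
  refine ⟨1 + W + 2 * (MM e - 1) * h0, fun H hH S hS hz => ?_⟩
  have hH1 : 1 ≤ H := by omega
  have hH0 : (0 : ℝ) < H := by exact_mod_cast hH1
  have h1 := hmain T (H + h0) (by omega) (S.image Ψ) (by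
      intro a ha
      rw [mem_image] at ha
      obtain ⟨r, hr, rfl⟩ := ha
      exact hΨQ H r (hS hr)) (by
      intro a ha
      rw [mem_image] at ha
      obtain ⟨r, hr, rfl⟩ := ha
      obtain ⟨x, y, h2, h3⟩ := hz r hr
      refine ⟨x, y, ?_, h3⟩
      rw [← eval_poly, hpoly]
      exact h2)
  rw [card_image_of_injective _ hΨinj, ← hu] at h1
  have h2 := pow_shift (n := MM e - 1) (h0 := h0) (H := H) (by omega)
  have h4 : 2 * (((e + 1 : ℕ) : ℝ) / (V + 1)) ≤ 1 / u := by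
    rw [mul_div_assoc', div_le_div_iff₀ (by positivity) hu0]
    linarith
  have h5 : C / Real.sqrt ((H + h0 : ℕ) : ℝ) ≤ 1 / u := by
    have h6 : (C * u) ^ 2 ≤ ((H + h0 : ℕ) : ℝ) := by
      have h7 : (C * u) ^ 2 ≤ W := by rw [hW]; exact Nat.le_ceil _
      have h8 : (W : ℝ) ≤ ((H + h0 : ℕ) : ℝ) := by exact_mod_cast (by omega : W ≤ H + h0)
      exact h7.trans h8
    have h9 : C * u ≤ Real.sqrt ((H + h0 : ℕ) : ℝ) := Real.le_sqrt_of_sq_le h6
    have h10 : 0 < Real.sqrt ((H + h0 : ℕ) : ℝ) := by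
      apply Real.sqrt_pos.2
      push_cast
      positivity
    rw [div_le_div_iff₀ h10 hu0]
    linarith
  refine h1.trans ?_
  rw [← hu]
  calc (24 * 2 ^ (e + 1) / u + 2 * (((e + 1 : ℕ) : ℝ) / (V + 1)) +
        C / Real.sqrt ((H + h0 : ℕ) : ℝ)) * (2 * (((H + h0 : ℕ)) : ℝ) + 1) ^ (MM e - 1)
      ≤ (24 * 2 ^ (e + 1) / u + 1 / u + 1 / u) * (3 * (2 * (H : ℝ) + 1) ^ (MM e - 1)) := by
        gcongr
    _ = _ := by
        unfold K2
        ring

/-- the constant of the lower bound -/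
noncomputable def K1 (e : ℕ) : ℝ := (6 * (MM e : ℝ)) ^ (MM e - (e + 1)) * 12 ^ e

lemma K1_pos (e : ℕ) : 0 < K1 e := by
  unfold K1
  have h1 : 0 < MM e := by have := MM_pos e; omega
  have h2 : (0 : ℝ) < MM e := by exact_mod_cast h1
  positivity

/-- **Lower bound.** -/
theorem lower_tail (he : 2 ≤ e) (φ : MvPolynomial (Fin 2) ℤ) {T : ℕ} (hT : 1 ≤ T) :
    ∃ H₀ : ℕ, ∀ H : ℕ, H₀ ≤ H → ∀ S : Finset (Cf e),
      (∀ r ∈ ibox ↥(I e) H, (∃ x y : ℤ, MvPolynomial.eval ![x, y] (φ + poly r) = 0 ∧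
        T < max x.natAbs y.natAbs) → r ∈ S) →
      1 / (2 * K1 e * (T : ℝ) ^ (e - 2)) * (2 * (H : ℝ) + 1) ^ (MM e - 1) ≤ (S.card : ℝ) := by
  classical
  have hK := K1_pos e
  have hM := MM_pos e
  have hT' : (1 : ℝ) ≤ T := by exact_mod_cast hT
  have hT0 : (0 : ℝ) < T := by linarith
  obtain ⟨P, hP⟩ : ∃ P : Finset (ℕ × ℕ), P = range (T + 1) ×ˢ Ioc T (2 * T) := ⟨_, rfl⟩
  have hPc : P.card = (T + 1) * T := by
    rw [hP, card_product, card_range, Nat.card_Ioc]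
    congr 1
    omega
  obtain ⟨v, hv⟩ : ∃ v : ℕ × ℕ → ℤ, v = fun p =>
    MvPolynomial.eval ![((p.1 : ℕ) : ℤ), ((p.2 : ℕ) : ℤ)] φ := ⟨_, rfl⟩
  obtain ⟨W, hW⟩ : ∃ W : ℕ, W = ⌈8 * K1 e * (T : ℝ) ^ (e + 2)⌉₊ := ⟨_, rfl⟩
  refine ⟨1 + 3 * T + 2 * (∑ p ∈ P, (v p).natAbs) + W, fun H hH S hS => ?_⟩
  obtain ⟨Z, hZ⟩ : ∃ Z : ℕ, Z = ∑ p ∈ P, (v p).natAbs := ⟨_, rfl⟩
  rw [← hZ] at hH
  have hH1 : 1 ≤ H := by omega
  have hH' : (1 : ℝ) ≤ H := by exact_mod_cast hH1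
  obtain ⟨X, hX⟩ : ∃ X : ℝ, X = 2 * (H : ℝ) + 1 := ⟨_, rfl⟩
  rw [← hX]
  have hX0 : 0 < X := by rw [hX]; linarith
  have hXW : 8 * K1 e * (T : ℝ) ^ (e + 2) ≤ X := by
    have h1 : 8 * K1 e * (T : ℝ) ^ (e + 2) ≤ W := by rw [hW]; exact Nat.le_ceil _
    have h2 : (W : ℝ) ≤ H := by exact_mod_cast (by omega : W ≤ H)
    rw [hX]
    linarith
  obtain ⟨A, hA⟩ : ∃ A : ℕ × ℕ → Finset (Cf e), A = fun p =>
    (ibox ↥(I e) H).filter fun a => Fv (co a) e (p.1 : ℕ) (p.2 : ℕ) = -v p := ⟨_, rfl⟩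
  obtain ⟨m, hm⟩ : ∃ m : ℝ, m = (X / (6 * MM e)) ^ (MM e - (e + 1)) * (X / (12 * T)) ^ e :=
    ⟨_, rfl⟩
  have hMMpos : (0 : ℝ) < MM e := by exact_mod_cast (by omega : 0 < MM e)
  have hlow : ∀ p ∈ P, m ≤ ((A p).card : ℝ) := by
    intro p hp
    rw [hP, mem_product, mem_range, mem_Ioc] at hp
    obtain ⟨hp1, hp2, hp3⟩ := hp
    have hvp : (v p).natAbs ≤ Z := by
      rw [hZ]
      apply single_le_sum (f := fun p => (v p).natAbs) (fun _ _ => Nat.zero_le _)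
      rw [hP, mem_product, mem_range, mem_Ioc]
      exact ⟨hp1, hp2, hp3⟩
    have hy1 : 1 ≤ p.2 := by omega
    have h1 := card_value (e := e) (H := H) (y := p.2) hy1 (x := (p.1 : ℕ)) (s := -v p)
      (by rw [abs_of_nonneg (by positivity)]; exact_mod_cast (by omega : p.1 ≤ p.2)) (by
        rw [abs_neg, Int.abs_eq_natAbs]
        have h2 : 2 * (v p).natAbs ≤ H := by omega
        have h3 : (1 : ℤ) ≤ (p.2 : ℤ) ^ e := one_le_pow₀ (by exact_mod_cast hy1)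
        have h4 : (2 : ℤ) * ((v p).natAbs : ℤ) ≤ H := by exact_mod_cast h2
        have h5 : (0 : ℤ) ≤ H := Nat.cast_nonneg H
        nlinarith)
    have h2 := (Nat.cast_le (α := ℝ)).2 h1
    rw [hA]
    refine le_trans ?_ h2
    rw [hm]
    push_cast
    have g1 : X / (6 * MM e) ≤ 2 * ((H / (2 * MM e) : ℕ) : ℝ) + 1 := by
      have h3 : H < 2 * MM e * (H / (2 * MM e) + 1) :=
        Nat.lt_mul_div_succ H (by omega)
      have h4 : (H : ℝ) < 2 * MM e * (((H / (2 * MM e) : ℕ) : ℝ) + 1) := by exact_mod_cast h3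
      rw [div_le_iff₀ (by positivity), hX]
      have h5 : (0 : ℝ) ≤ ((H / (2 * MM e) : ℕ) : ℝ) := Nat.cast_nonneg _
      nlinarith [mul_nonneg hMMpos.le h5]
    have g2 : X / (12 * T) ≤ (((H + 1) / p.2 : ℕ) : ℝ) := by
      have h3 : H + 1 < p.2 * ((H + 1) / p.2 + 1) := Nat.lt_mul_div_succ (H + 1) (by omega)
      have h4 : (H : ℝ) + 1 < p.2 * ((((H + 1) / p.2 : ℕ) : ℝ) + 1) := by exact_mod_cast h3
      have h5 : (p.2 : ℝ) ≤ 2 * T := by exact_mod_cast hp3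
      have h6 : (0 : ℝ) ≤ (((H + 1) / p.2 : ℕ) : ℝ) := Nat.cast_nonneg _
      have h7 : (H : ℝ) + 1 < 2 * T * ((((H + 1) / p.2 : ℕ) : ℝ) + 1) := by
        refine lt_of_lt_of_le h4 ?_
        gcongr
      have h8 : 3 * (T : ℝ) ≤ H := by exact_mod_cast (by omega : 3 * T ≤ H)
      rw [div_le_iff₀ (by positivity), hX]
      nlinarith
    gcongr
  have hpair : ∀ p ∈ P, ∀ q ∈ P, p ≠ q → ((A p ∩ A q).card : ℝ) ≤ X ^ (MM e - 2) := by
    intro p _ q _ hpq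
    have hne : (((p.1 : ℕ) : ℤ), ((p.2 : ℕ) : ℤ)) ≠ (((q.1 : ℕ) : ℤ), ((q.2 : ℕ) : ℤ)) := by
      intro h
      rw [Prod.mk.injEq] at h
      apply hpq
      exact Prod.ext (by exact_mod_cast h.1) (by exact_mod_cast h.2)
    have h1 := card_two_values (e := e) (by omega) (H := H) (s := -v p) (s' := -v q) hne
    have h2 : A p ∩ A q ⊆ (ibox ↥(I e) H).filter fun a =>
        Fv (co a) e (p.1 : ℕ) (p.2 : ℕ) = -v p ∧ Fv (co a) e (q.1 : ℕ) (q.2 : ℕ) = -v q := by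
      intro a ha
      rw [hA, mem_inter, mem_filter, mem_filter] at ha
      rw [mem_filter]
      exact ⟨ha.1.1, ha.1.2, ha.2.2⟩
    have h3 := (card_le_card h2).trans h1
    rw [hX]
    exact_mod_cast h3
  have hsub : P.biUnion A ⊆ S := by
    intro a ha
    rw [mem_biUnion] at ha
    obtain ⟨p, hp, ha⟩ := ha
    rw [hA, mem_filter] at ha
    rw [hP, mem_product, mem_range, mem_Ioc] at hp
    apply hS a ha.1
    refine ⟨(p.1 : ℕ), (p.2 : ℕ), ?_, ?_⟩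
    · rw [map_add, eval_poly, ha.2, hv]
      simp only
      ring
    · rw [lt_max_iff]
      right
      rw [Int.natAbs_natCast]
      omega
  have key := card_union_lower P A m (X ^ (MM e - 2)) hlow hpair (by positivity)
  have hfin : ((P.biUnion A).card : ℝ) ≤ S.card := by exact_mod_cast card_le_card hsub
  refine le_trans ?_ (key.trans hfin)
  rw [hPc]
  push_cast
  have hm0 : 0 ≤ m := by rw [hm]; positivity
  have eX : X ^ (MM e - 1) = X ^ (MM e - (e + 1)) * X ^ e := by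
    rw [← pow_add]
    congr 1
    omega
  have eX2 : X ^ (MM e - 1) = X ^ (MM e - 2) * X := by
    rw [← pow_succ]
    congr 1
    omega
  have eT : (T : ℝ) ^ e = (T : ℝ) ^ (e - 2) * (T : ℝ) ^ 2 := by
    rw [← pow_add]
    congr 1
    omega
  have eT2 : (T : ℝ) ^ (e + 2) = (T : ℝ) ^ (e - 2) * (T : ℝ) ^ 4 := by
    rw [← pow_add]
    congr 1
    omega
  have m1 : (T : ℝ) ^ 2 * m = 1 / (K1 e * (T : ℝ) ^ (e - 2)) * X ^ (MM e - 1) := by
    rw [hm, eX]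
    unfold K1
    rw [div_pow, div_pow, mul_pow (12 : ℝ) (T : ℝ), eT]
    field_simp
  have m2 : (T : ℝ) ^ 2 * m ≤ ((T : ℝ) + 1) * T * m := by
    apply mul_le_mul_of_nonneg_right _ hm0
    nlinarith
  have m3 : (((T : ℝ) + 1) * T) ^ 2 * X ^ (MM e - 2) ≤
      1 / (2 * K1 e * (T : ℝ) ^ (e - 2)) * X ^ (MM e - 1) := by
    have h1 : (((T : ℝ) + 1) * T) ^ 2 ≤ 4 * (T : ℝ) ^ 4 := by
      have h2 : ((T : ℝ) + 1) * T ≤ 2 * (T : ℝ) ^ 2 := by nlinarith
      calc (((T : ℝ) + 1) * T) ^ 2 ≤ (2 * (T : ℝ) ^ 2) ^ 2 := by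
            apply pow_le_pow_left₀ (by positivity) h2
        _ = _ := by ring
    rw [eX2, one_div, ← div_eq_inv_mul, le_div_iff₀ (by positivity)]
    calc (((T : ℝ) + 1) * T) ^ 2 * X ^ (MM e - 2) * (2 * K1 e * (T : ℝ) ^ (e - 2))
        ≤ 4 * (T : ℝ) ^ 4 * X ^ (MM e - 2) * (2 * K1 e * (T : ℝ) ^ (e - 2)) := by gcongr
      _ = X ^ (MM e - 2) * (8 * K1 e * ((T : ℝ) ^ (e - 2) * (T : ℝ) ^ 4)) := by ring
      _ = X ^ (MM e - 2) * (8 * K1 e * (T : ℝ) ^ (e + 2)) := by rw [eT2]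
      _ ≤ X ^ (MM e - 2) * X := by gcongr
  have m4 : 1 / (K1 e * (T : ℝ) ^ (e - 2)) * X ^ (MM e - 1) =
      2 * (1 / (2 * K1 e * (T : ℝ) ^ (e - 2)) * X ^ (MM e - 1)) := by
    field_simp
  linarith

end

end Pool.Agent.R414.DU
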