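import Pool.Agent.R414.DT.Fy

set_option autoImplicit false
set_option linter.unusedSectionVars false

/-! Fibres over two coordinates of the third row. -/

open Finset

namespace Pool.Agent.R414.DU

open Pool.Agent.R414.DN Pool.Agent.R414.DS Pool.Agent.R414.DT

variable {d : ℕ}

/-- pairs near a line with a slope that is not close to rational numbers with small denominators -/
lemma pair_sep {α g E : ℝ} {H V : ℕ} (hg2 : 2 * g < 1)
    (hsep : ∀ q : ℕ, 1 ≤ q → q ≤ V → ∀ p : ℤ, 2 * g < |q * α - p|) (P : Finset (ℤ × ℤ))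
    (hP : ∀ z ∈ P, |z.2| ≤ H) (h : ∀ z ∈ P, |(z.1 : ℝ) + z.2 * α + E| ≤ g) :
    P.card ≤ 2 * H / (V + 1) + 1 := by
  classical
  rw [← card_range (2 * H / (V + 1) + 1)]
  apply card_le_card_of_injOn (fun z => ((z.2 + H) / ((V : ℤ) + 1)).toNat)
  · intro z hz
    rw [mem_coe] at hz
    have h1 := abs_le.1 (hP z hz)
    simp only [coe_range, Set.mem_Iio]
    have h2 : (z.2 + H) / ((V : ℤ) + 1) ≤ ((2 * H / (V + 1) : ℕ) : ℤ) := by
      push_cast
      apply Int.ediv_le_ediv (by positivity)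
      linarith
    exact Nat.lt_succ_of_le (Int.toNat_le.2 h2)
  · intro z hz z' hz' hzz
    rw [mem_coe] at hz hz'
    have h1 := abs_le.1 (hP z hz)
    have h2 := abs_le.1 (hP z' hz')
    simp only at hzz
    have hV0 : (0 : ℤ) < (V : ℤ) + 1 := by positivity
    have e1 : 0 ≤ (z.2 + H) / ((V : ℤ) + 1) := Int.ediv_nonneg (by linarith) hV0.le
    have e2 : 0 ≤ (z'.2 + H) / ((V : ℤ) + 1) := Int.ediv_nonneg (by linarith) hV0.le
    have e3 : (z.2 + H) / ((V : ℤ) + 1) = (z'.2 + H) / ((V : ℤ) + 1) := by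
      rw [← Int.toNat_of_nonneg e1, ← Int.toNat_of_nonneg e2, hzz]
    have f1 := Int.mul_ediv_add_emod (z.2 + H) ((V : ℤ) + 1)
    have f2 := Int.mul_ediv_add_emod (z'.2 + H) ((V : ℤ) + 1)
    have f3 := Int.emod_nonneg (z.2 + H) hV0.ne'
    have f4 := Int.emod_nonneg (z'.2 + H) hV0.ne'
    have f5 := Int.emod_lt_of_pos (z.2 + H) hV0
    have f6 := Int.emod_lt_of_pos (z'.2 + H) hV0
    rw [e3] at f1
    have hlt : (z.2 - z'.2).natAbs ≤ V := by omega
    have hdiff : |((z.1 - z'.1 : ℤ) : ℝ) + ((z.2 - z'.2 : ℤ) : ℝ) * α| ≤ 2 * g := by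
      have g1 := abs_le.1 (h z hz)
      have g2 := abs_le.1 (h z' hz')
      push_cast
      rw [abs_le]
      constructor <;> nlinarith
    by_cases h0 : z.2 = z'.2
    · rw [h0, sub_self, Int.cast_zero, zero_mul, add_zero] at hdiff
      have h3 : |((z.1 - z'.1 : ℤ) : ℝ)| < 1 := lt_of_le_of_lt hdiff hg2
      rw [← Int.cast_abs] at h3
      have h4 : |z.1 - z'.1| < 1 := by exact_mod_cast h3
      have h5 : z.1 - z'.1 = 0 := Int.abs_lt_one_iff.1 h4
      exact Prod.ext (by linarith) h0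
    · exfalso
      have hq1 : 1 ≤ (z.2 - z'.2).natAbs := by omega
      rcases le_total 0 (z.2 - z'.2) with hs | hs
      · have h3 := hsep _ hq1 hlt (-(z.1 - z'.1))
        have h4 : (((z.2 - z'.2).natAbs : ℕ) : ℝ) = ((z.2 - z'.2 : ℤ) : ℝ) := by
          rw [← Int.cast_natCast, Int.natCast_natAbs, abs_of_nonneg hs]
        rw [h4] at h3
        have h5 : ((z.2 - z'.2 : ℤ) : ℝ) * α - ((-(z.1 - z'.1) : ℤ) : ℝ) =
          ((z.1 - z'.1 : ℤ) : ℝ) + ((z.2 - z'.2 : ℤ) : ℝ) * α := by push_cast; ring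
        rw [h5] at h3
        linarith
      · have h3 := hsep _ hq1 hlt (z.1 - z'.1)
        have h4 : (((z.2 - z'.2).natAbs : ℕ) : ℝ) = -((z.2 - z'.2 : ℤ) : ℝ) := by
          rw [← Int.cast_natCast, Int.natCast_natAbs, abs_of_nonpos hs]
          push_cast
          ring
        rw [h4] at h3
        have h5 : -((z.2 - z'.2 : ℤ) : ℝ) * α - ((z.1 - z'.1 : ℤ) : ℝ) =
          -(((z.1 - z'.1 : ℤ) : ℝ) + ((z.2 - z'.2 : ℤ) : ℝ) * α) := by push_cast; ring
        rw [h5, abs_neg] at h3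
        linarith

/-- irrational numbers stay away from rational numbers with small denominators -/
lemma exists_sep {K : Finset ℝ} (hK : ∀ α ∈ K, Irrational α) (V : ℕ) : ∃ g : ℝ, 0 < g ∧
    2 * g < 1 ∧ ∀ α ∈ K, ∀ q : ℕ, 1 ≤ q → q ≤ V → ∀ p : ℤ, 2 * g < |q * α - p| := by
  classical
  have h1 : ∀ x ∈ K ×ˢ Icc 1 V, 0 < |(x.2 : ℝ) * x.1 - round ((x.2 : ℝ) * x.1)| := by
    intro x hx
    rw [mem_product, mem_Icc] at hx
    rw [abs_pos, sub_ne_zero]
    have h2 : Irrational ((x.2 : ℝ) * x.1) := (hK _ hx.1).natCast_mul (by omega)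
    exact h2.ne_int _
  obtain ⟨m, hm0, hm⟩ : ∃ m : ℝ, 0 < m ∧ ∀ x ∈ K ×ˢ Icc 1 V,
      m ≤ |(x.2 : ℝ) * x.1 - round ((x.2 : ℝ) * x.1)| := by
    rcases (K ×ˢ Icc 1 V).eq_empty_or_nonempty with h0 | h0
    · refine ⟨1, one_pos, fun x hx => ?_⟩
      rw [h0] at hx
      simp at hx
    · obtain ⟨x0, hx0, hmin⟩ := exists_min_image (K ×ˢ Icc 1 V)
        (fun x => |(x.2 : ℝ) * x.1 - round ((x.2 : ℝ) * x.1)|) h0
      exact ⟨_, h1 x0 hx0, hmin⟩
  refine ⟨min (m / 3) (1 / 3), by positivity, ?_, ?_⟩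
  · have := min_le_right (m / 3) (1 / 3 : ℝ)
    linarith
  · intro α hα q hq1 hqV p
    have h2 := hm (α, q) (by rw [mem_product, mem_Icc]; exact ⟨hα, hq1, hqV⟩)
    have h3 := round_le ((q : ℝ) * α) p
    have h4 := min_le_left (m / 3) (1 / 3 : ℝ)
    simp only at h2
    linarith

lemma noRoot_irr {c : ℕ → ℕ → ℤ} {d : ℕ} (hNR : NoRoot c d) {t : ℝ} (ht : TT c d 0 t = 0) :
    Irrational t := by
  rintro ⟨r, rfl⟩
  apply hNR r.num r.den (by exact_mod_cast r.pos)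
  have hden : ((r.den : ℝ)) ≠ 0 := by exact_mod_cast r.den_nz
  have h1 : ((∑ i ∈ range (d + 1), c d i * (r.num ^ i * (r.den : ℤ) ^ (d - i)) : ℤ) : ℝ) =
      (r.den : ℝ) ^ d * TT c d 0 (r : ℝ) := by
    rw [TT_zero, mul_sum]
    push_cast
    refine sum_congr rfl fun i hi => ?_
    rw [mem_range] at hi
    have h2 : (r.den : ℝ) ^ d = (r.den : ℝ) ^ i * (r.den : ℝ) ^ (d - i) := by
      rw [← pow_add]
      congr 1
      omega
    have h3 : (r : ℝ) = (r.num : ℝ) / (r.den : ℝ) := by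
      rw [Rat.cast_def]
    rw [h2, h3, div_pow]
    field_simp
  rw [ht, mul_zero] at h1
  exact_mod_cast h1

lemma rts_irr {c : ℕ → ℕ → ℤ} {d : ℕ} (hNR : NoRoot c d) : ∀ α ∈ rts c d, Irrational α := by
  intro α hα
  apply noRoot_irr hNR
  unfold rts at hα
  rw [Multiset.mem_toFinset, Polynomial.mem_roots'] at hα
  have h1 := hα.2
  rw [Polynomial.IsRoot, Polynomial.eval_finsetSum] at h1
  rw [TT_zero, ← h1]
  refine sum_congr rfl fun j _ => ?_
  simp

section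

variable {T : Finset (Cf d)} {c a₀ : Cf d} {p2 p3 : ↥(I d)}

lemma row_eq (hp2 : p2.1 = (d - 2, 0)) (hp3 : p3.1 = (d - 2, 1)) (h0 : a₀ ∈ T)
    (hTb : ∀ a ∈ T, ∀ i ∉ ({p2, p3} : Finset ↥(I d)), a i = c i) {a : Cf d} (ha : a ∈ T)
    {k i : ℕ} (hk : (k, i) ≠ (d - 2, 0)) (hk' : (k, i) ≠ (d - 2, 1)) :
    co a k i = co a₀ k i := by
  by_cases hmem : (k, i) ∈ I d
  · have hpJ : (⟨(k, i), hmem⟩ : ↥(I d)) ∉ ({p2, p3} : Finset ↥(I d)) := by
      rw [mem_insert, mem_singleton, not_or]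
      constructor
      · intro h
        exact hk ((congrArg Subtype.val h).trans hp2)
      · intro h
        exact hk' ((congrArg Subtype.val h).trans hp3)
    rw [co_of_mem a hmem, co_of_mem a₀ hmem, hTb a ha _ hpJ, hTb a₀ h0 _ hpJ]
  · unfold co
    rw [dif_neg hmem, dif_neg hmem]

lemma TT_eq (hp2 : p2.1 = (d - 2, 0)) (hp3 : p3.1 = (d - 2, 1)) (h0 : a₀ ∈ T)
    (hTb : ∀ a ∈ T, ∀ i ∉ ({p2, p3} : Finset ↥(I d)), a i = c i) {a : Cf d} (ha : a ∈ T)
    {k : ℕ} (i : ℕ) (t : ℝ) (hk : k ≠ d - 2) : TT (co a) k i t = TT (co a₀) k i t := by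
  unfold TT
  refine sum_congr rfl fun j _ => ?_
  rw [row_eq hp2 hp3 h0 hTb ha (fun h => hk (congrArg Prod.fst h))
    (fun h => hk (congrArg Prod.fst h))]

lemma TT_two (hd : 3 ≤ d) (hp2 : p2.1 = (d - 2, 0)) (hp3 : p3.1 = (d - 2, 1)) (h0 : a₀ ∈ T)
    (hTb : ∀ a ∈ T, ∀ i ∉ ({p2, p3} : Finset ↥(I d)), a i = c i) {a : Cf d} (ha : a ∈ T)
    (t : ℝ) : TT (co a) (d - 2) 0 t = TT (co a₀) (d - 2) 0 t +
      (((a p2 : ℝ) - a₀ p2) + ((a p3 : ℝ) - a₀ p3) * t) := by
  have hm2 : (d - 2, 0) ∈ I d := by rw [mem_I]; omega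
  have hm3 : (d - 2, 1) ∈ I d := by rw [mem_I]; omega
  have e2 : ∀ a : Cf d, co a (d - 2) 0 = a p2 := by
    intro a
    rw [co_of_mem a hm2]
    congr 1
    exact Subtype.ext hp2.symm
  have e3 : ∀ a : Cf d, co a (d - 2) 1 = a p3 := by
    intro a
    rw [co_of_mem a hm3]
    congr 1
    exact Subtype.ext hp3.symm
  have h1 : TT (co a) (d - 2) 0 t - TT (co a₀) (d - 2) 0 t =
      ∑ j ∈ range 2, ((co a (d - 2) j : ℝ) - co a₀ (d - 2) j) * t ^ j := by
    rw [TT_zero, TT_zero, ← sum_sub_distrib]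
    symm
    rw [sum_subset (range_subset_range.2 (by omega : 2 ≤ d - 2 + 1))]
    · refine sum_congr rfl fun j _ => ?_
      ring
    · intro j _ hj
      rw [mem_range] at hj
      rw [row_eq hp2 hp3 h0 hTb ha (fun h => by have := congrArg Prod.snd h; simp only at this; omega)
        (fun h => by have := congrArg Prod.snd h; simp only at this; omega), sub_self, zero_mul]
  rw [sum_range_succ, sum_range_one, e2, e2, e3, e3] at h1
  rw [pow_zero, mul_one, pow_one] at h1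
  linarith

end

/-- the fibre bound for the second condition, two coordinates -/
lemma fiber_notGB2 {H V : ℕ} {g : ℝ} (hd : 3 ≤ d) {b : Cf d}
    (hNR : NoRoot (co b) d) (hg2 : 2 * g < 1)
    (hsep : ∀ α ∈ rts (co b) d, ∀ q : ℕ, 1 ≤ q → q ≤ V → ∀ p : ℤ, 2 * g < |q * α - p|)
    {p2 p3 : ↥(I d)} (hp2 : p2.1 = (d - 2, 0)) (hp3 : p3.1 = (d - 2, 1)) (c : Cf d)
    (T : Finset (Cf d)) (hT : T ⊆ QF b H)
    (hTb : ∀ a ∈ T, ∀ i ∉ ({p2, p3} : Finset ↥(I d)), a i = c i)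
    (hG : ∀ a ∈ T, ¬ GB (co a) d g) :
    (T.card : ℝ) ≤ d * (2 * H / (V + 1) + 1) := by
  classical
  rcases T.eq_empty_or_nonempty with h0 | ⟨a₀, h0⟩
  · rw [h0, card_empty, Nat.cast_zero]
    positivity
  have e1 : ∀ a ∈ T, ∀ k i t, k ≠ d - 2 → TT (co a) k i t = TT (co a₀) k i t :=
    fun a ha k i t hk => TT_eq hp2 hp3 h0 hTb ha i t hk
  have e2 := fun a (ha : a ∈ T) t => TT_two hd hp2 hp3 h0 hTb ha t
  have e3 : ∀ a ∈ T, ∀ t, bet (co a) d t = bet (co a₀) d t := by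
    intro a ha t
    unfold bet
    rw [e1 a ha _ _ _ (by omega), e1 a ha _ _ _ (by omega)]
  obtain ⟨E, hE⟩ : ∃ E : ℝ → ℝ, E = fun α => TT (co a₀) (d - 2) 0 α +
    TT (co a₀) (d - 1) 1 α * bet (co a₀) d α + TT (co a₀) d 2 α * bet (co a₀) d α ^ 2 -
    a₀ p2 - a₀ p3 * α := ⟨_, rfl⟩
  have key := card_cover (S := T) (K := rts (co b) d)
    (fun α a => |(a p2 : ℝ) + a p3 * α + E α| ≤ g) (B := ((2 * H / (V + 1) + 1 : ℕ) : ℝ)) ?_ ?_
  · refine key.trans ?_
    have h1 := card_rts (co b) d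
    have h3 : ((rts (co b) d).card : ℝ) ≤ d := by exact_mod_cast h1
    have h4 : ((2 * H / (V + 1) : ℕ) : ℝ) ≤ 2 * H / (V + 1) := by
      refine Nat.cast_div_le.trans (le_of_eq ?_)
      push_cast
      rfl
    push_cast at h4 ⊢
    gcongr
  · intro a ha
    have h2 := hG a ha
    unfold GB at h2
    push Not at h2
    obtain ⟨α, -, h3, h4, h5⟩ := h2
    refine ⟨α, ?_, ?_⟩
    · apply mem_rts hNR
      rw [← TT_row (mem_QF.1 (hT ha)).2]
      exact h3
    · have h6 : TT (co a) d 1 α * gam (co a) d α = -((a p2 : ℝ) + a p3 * α + E α) := by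
        unfold gam
        rw [hE]
        simp only
        rw [e3 a ha, e2 a ha, e1 a ha (d - 1) _ _ (by omega), e1 a ha d 2 _ (by omega)]
        field_simp
        ring
      rw [h6, abs_neg] at h5
      exact h5.le
  · intro α hα T' hT' hP
    have h7 : T'.card = (T'.image fun a => (a p2, a p3)).card := by
      rw [card_image_of_injOn]
      intro a ha a' ha' haa
      rw [mem_coe] at ha ha'
      simp only [Prod.mk.injEq] at haa
      funext i
      by_cases hi : i ∈ ({p2, p3} : Finset ↥(I d))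
      · rw [mem_insert, mem_singleton] at hi
        rcases hi with rfl | rfl
        · exact haa.1
        · exact haa.2
      · rw [hTb a (hT' ha) i hi, hTb a' (hT' ha') i hi]
    rw [h7]
    apply Nat.cast_le.2
    apply pair_sep hg2 (hsep α hα)
    · intro z hz
      rw [mem_image] at hz
      obtain ⟨a, ha, rfl⟩ := hz
      exact mem_ibox.1 (QF_sub b H (hT (hT' ha))) p3
    · intro z hz
      rw [mem_image] at hz
      obtain ⟨a, ha, rfl⟩ := hz
      exact hP a ha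

/-- fibres of the curves that violate the condition on lines, two coordinates -/
lemma lines_fiber2 (hd : 4 ≤ d) {p2 p3 : ↥(I d)} (hp2 : p2.1 = (d - 2, 0))
    (hp3 : p3.1 = (d - 2, 1)) (T : Finset (Cf d))
    (c : Cf d) (hTb : ∀ a ∈ T, ∀ i ∉ ({p2, p3} : Finset ↥(I d)), a i = c i)
    (hz : ∀ a ∈ T, Lead a ∧ ¬ LinesC a) : T.card ≤ d := by
  classical
  rcases T.eq_empty_or_nonempty with h0 | ⟨a₀, h0⟩
  · rw [h0, card_empty]
    exact Nat.zero_le _
  have hex : ∀ a ∈ T, ∃ t u : ℝ, TT (co a) d 0 t = 0 ∧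
      TT (co a) (d - 1) 0 t + TT (co a) d 1 t * u = 0 ∧
      TT (co a) (d - 2) 0 t + TT (co a) (d - 1) 1 t * u + TT (co a) d 2 t * u ^ 2 = 0 :=
    fun a ha => lines_fail (by omega) (hz a ha).1 (hz a ha).2
  choose! t u htu using hex
  have e1 : ∀ a ∈ T, ∀ k i t, k ≠ d - 2 → TT (co a) k i t = TT (co a₀) k i t :=
    fun a ha k i t hk => TT_eq hp2 hp3 h0 hTb ha i t hk
  have e2 := fun a (ha : a ∈ T) t => TT_two (by omega : 3 ≤ d) hp2 hp3 h0 hTb ha t
  have hNR := noRoot_of_lead (by omega : 2 ≤ d) (hz a₀ h0).1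
  refine le_trans ?_ (card_rts (co a₀) d)
  apply card_le_card_of_injOn t
  · intro a ha
    rw [mem_coe] at ha ⊢
    apply mem_rts hNR
    rw [← e1 a ha d 0 _ (by omega)]
    exact (htu a ha).1
  · intro a ha a' ha' haa
    rw [mem_coe] at ha ha'
    obtain ⟨f1, f2, f3⟩ := htu a ha
    obtain ⟨g1, g2, g3⟩ := htu a' ha'
    have hne := TT1_ne (by omega) (hz a ha).1 f1
    rw [← haa] at g1 g2 g3
    rw [e1 a ha (d - 1) 0 _ (by omega), e1 a ha d 1 _ (by omega)] at f2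
    rw [e1 a' ha' (d - 1) 0 _ (by omega), e1 a' ha' d 1 _ (by omega)] at g2
    rw [e1 a ha d 1 _ (by omega)] at hne
    have hu : u a = u a' := by
      apply mul_left_cancel₀ hne
      linarith
    rw [e2 a ha, e1 a ha (d - 1) 1 _ (by omega), e1 a ha d 2 _ (by omega)] at f3
    rw [e2 a' ha', e1 a' ha' (d - 1) 1 _ (by omega), e1 a' ha' d 2 _ (by omega), ← hu] at g3
    have hirr : Irrational (t a) := by
      apply noRoot_irr hNR
      rw [← e1 a ha d 0 _ (by omega)]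
      exact f1
    have h5 : ((a p2 - a' p2 : ℤ) : ℝ) + ((a p3 - a' p3 : ℤ) : ℝ) * t a = 0 := by
      push_cast
      linarith
    have h6 : a p3 - a' p3 = 0 := by
      by_contra h7
      have h8 := (hirr.intCast_mul h7).intCast_add (a p2 - a' p2)
      apply h8.ne_int 0
      rw [Int.cast_zero]
      exact h5
    rw [h6, Int.cast_zero, zero_mul, add_zero] at h5
    have h7 : a p2 - a' p2 = 0 := by exact_mod_cast h5
    funext i
    by_cases hi : i ∈ ({p2, p3} : Finset ↥(I d))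
    · rw [mem_insert, mem_singleton] at hi
      rcases hi with rfl | rfl
      · linarith
      · linarith
    · rw [hTb a ha i hi, hTb a' ha' i hi]

end Pool.Agent.R414.DU
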