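import Pool.Agent.R414.DU.Sep

set_option autoImplicit false
set_option linter.unusedSectionVars false

/-! Curves with a prescribed leading form: the ranges, for points outside a fixed box. -/

open Finset

namespace Pool.Agent.R414.DU

open Pool.Agent.R414.DN Pool.Agent.R414.DS Pool.Agent.R414.DT

variable {d : ℕ}

lemma tail_term (k : ℕ) (hk : 1 ≤ k) (n : ℕ) :
    1 / (((n : ℝ) + 1) ^ (k + 1)) ≤ 2 / (((n : ℝ) + 1) ^ k) - 2 / ((((n + 1 : ℕ) : ℝ) + 1) ^ k) := by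
  push_cast
  obtain ⟨u, hu⟩ : ∃ u : ℝ, u = (n : ℝ) + 1 := ⟨_, rfl⟩
  have hu1 : 1 ≤ u := by
    rw [hu]
    linarith [(Nat.cast_nonneg n : (0 : ℝ) ≤ n)]
  have hu0 : 0 < u := by linarith
  rw [← hu]
  have h1 : 1 / ((u + 1) ^ k) ≤ 1 / (u ^ k) * (u / (u + 1)) := by
    obtain ⟨m, rfl⟩ : ∃ m, k = m + 1 := ⟨k - 1, by omega⟩
    have e : 1 / (u ^ (m + 1)) * (u / (u + 1)) = 1 / (u ^ m * (u + 1)) := by
      rw [pow_succ]
      field_simp
    rw [e, pow_succ]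
    apply one_div_le_one_div_of_le (by positivity)
    gcongr
    linarith
  have h2 : 2 / (u ^ k) - 2 / ((u + 1) ^ k) ≥ 2 * (1 / (u ^ k) * (1 / (u + 1))) := by
    have e1 : 2 / (u ^ k) = 2 * (1 / u ^ k) := by ring
    have e2 : 2 / ((u + 1) ^ k) = 2 * (1 / (u + 1) ^ k) := by ring
    have e3 : 1 / (u ^ k) * (1 / (u + 1)) = 1 / u ^ k - 1 / (u ^ k) * (u / (u + 1)) := by
      field_simp
      ring
    rw [e1, e2, e3]
    linarith
  refine le_trans ?_ h2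
  have h3 : 1 / (u ^ (k + 1)) = 1 / u ^ k * (1 / u) := by
    rw [pow_succ]
    field_simp
  rw [h3]
  have h4 : 1 / u ≤ 2 * (1 / (u + 1)) := by
    rw [mul_one_div, div_le_div_iff₀ hu0 (by linarith)]
    linarith
  calc 1 / u ^ k * (1 / u) ≤ 1 / u ^ k * (2 * (1 / (u + 1))) := by gcongr
    _ = _ := by ring

lemma sum_tail_pow (k : ℕ) (hk : 1 ≤ k) (T : ℕ) : ∀ n : ℕ, T ≤ n →
    ∑ Y ∈ Ico T n, 1 / (((Y : ℝ) + 1) ^ (k + 1)) ≤
      2 / (((T : ℝ) + 1) ^ k) - 2 / (((n : ℝ) + 1) ^ k) := by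
  intro n hn
  induction n, hn using Nat.le_induction with
  | base => simp
  | succ n hn ih =>
    rw [sum_Ico_succ_top hn]
    have h1 := tail_term k hk n
    linarith

lemma sum_tail_pow' (k : ℕ) (hk : 1 ≤ k) (T n : ℕ) :
    ∑ Y ∈ Ico T n, 1 / (((Y : ℝ) + 1) ^ (k + 1)) ≤ 2 / (((T : ℝ) + 1) ^ k) := by
  rcases le_total T n with h | h
  · refine (sum_tail_pow k hk T n h).trans ?_
    have : 0 ≤ 2 / (((n : ℝ) + 1) ^ k) := by positivity
    linarith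
  · rw [Ico_eq_empty_of_le h, sum_empty]
    positivity

/-- **Small points outside a box.** -/
theorem small_tail {H A T : ℕ} (hd : 6 ≤ d) (hH : 1 ≤ H) {b : Cf d} {S : Finset (Cf d)}
    (hS : S ⊆ QF b H)
    (hz : ∀ a ∈ S, ∃ x y : ℤ, |x| ≤ |y| ∧ T < y.natAbs ∧ y.natAbs ≤ A * H ^ 2 ∧
      Fv (co a) d x y = 0) :
    (S.card : ℝ) ≤ (24 * 2 ^ (d - 1) / ((T : ℝ) + 1) ^ (d - 3) +
      12 * 2 ^ (d - 1) * (A : ℝ) ^ 2 / H) *
      (2 * (H : ℝ) + 1) ^ (MM d - (d + 1) - 1) := by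
  classical
  have hHr : (1 : ℝ) ≤ H := by exact_mod_cast hH
  have hH0 : (0 : ℝ) < H := by linarith
  have hM := MM_big (by omega : 4 ≤ d)
  have hsub : S ⊆ (Ico T (A * H ^ 2)).biUnion fun Y =>
        ((shell (Y + 1)).filter fun P => P.2.natAbs = Y + 1).biUnion fun P =>
        S.filter fun a => Fv (co a) d P.1 P.2 = 0 := by
    intro a ha
    obtain ⟨x, y, hxy, hT, hy, h0⟩ := hz a ha
    have hxy' : x.natAbs ≤ y.natAbs := by
      rw [Int.abs_eq_natAbs, Int.abs_eq_natAbs] at hxy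
      exact_mod_cast hxy
    rw [mem_biUnion]
    refine ⟨y.natAbs - 1, ?_, ?_⟩
    · rw [mem_Ico]
      omega
    · rw [mem_biUnion]
      refine ⟨(x, y), ?_, ?_⟩
      · unfold shell
        simp only [mem_filter, mem_product, mem_Icc]
        omega
      · rw [mem_filter]
        exact ⟨ha, h0⟩
  have hcard : (S.card : ℝ) ≤ ∑ Y ∈ Ico T (A * H ^ 2),
      (4 * (2 * ((Y : ℝ) + 1) + 1)) * ((((2 * H / (Y + 1) + 1) ^ (d - 1) : ℕ) : ℝ) *
        (2 * (H : ℝ) + 1) ^ (MM d - (d + 1) - d)) := by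
    have h1 := (Nat.cast_le (α := ℝ)).2 ((card_le_card hsub).trans card_biUnion_le)
    push_cast at h1
    refine h1.trans (sum_le_sum fun Y _ => ?_)
    have h2 := (Nat.cast_le (α := ℝ)).2 (card_biUnion_le
      (s := (shell (Y + 1)).filter fun P => P.2.natAbs = Y + 1)
      (t := fun P => S.filter fun a => Fv (co a) d P.1 P.2 = 0))
    refine h2.trans ?_
    push_cast
    calc ∑ P ∈ (shell (Y + 1)).filter fun P => P.2.natAbs = Y + 1,
          ((S.filter fun a => Fv (co a) d P.1 P.2 = 0).card : ℝ)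
        ≤ ∑ P ∈ (shell (Y + 1)).filter fun P => P.2.natAbs = Y + 1,
          (((2 * H / (Y + 1) + 1 : ℕ) : ℝ) ^ (d - 1) *
            (2 * (H : ℝ) + 1) ^ (MM d - (d + 1) - d)) := by
          apply sum_le_sum
          intro P hP
          have hP2 := (mem_filter.1 hP).2
          have hne : P.2 ≠ 0 := by
            intro h
            rw [h] at hP2
            simp at hP2
          have h3 := zero_at_QF (by omega : 4 ≤ d) ((filter_subset _ _).trans hS) (x := P.1) hne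
            (S := S.filter fun a => Fv (co a) d P.1 P.2 = 0) (fun a ha => (mem_filter.1 ha).2)
          rw [hP2] at h3
          exact h3
      _ = (((shell (Y + 1)).filter fun P => P.2.natAbs = Y + 1).card : ℝ) * _ := by
          rw [sum_const, nsmul_eq_mul]
      _ ≤ _ := by
          have h4 : ((shell (Y + 1)).filter fun P => P.2.natAbs = Y + 1).card ≤
            4 * (2 * (Y + 1) + 1) := (card_le_card (filter_subset _ _)).trans (card_shell _)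
          have h5 : (((shell (Y + 1)).filter fun P => P.2.natAbs = Y + 1).card : ℝ) ≤
            4 * (2 * ((Y : ℝ) + 1) + 1) := by exact_mod_cast h4
          push_cast
          gcongr
  refine hcard.trans ?_
  set B : ℝ := (2 * (H : ℝ) + 1) ^ (MM d - (d + 1) - d) with hB
  have hB0 : 0 < B := by rw [hB]; positivity
  have hterm : ∀ Y ∈ Ico T (A * H ^ 2), (4 * (2 * ((Y : ℝ) + 1) + 1)) *
      ((((2 * H / (Y + 1) + 1) ^ (d - 1) : ℕ) : ℝ) * B) ≤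
      12 * 2 ^ (d - 1) * B * ((2 * H) ^ (d - 1) * (1 / ((Y : ℝ) + 1) ^ (d - 3 + 1)) +
        (A : ℝ) * (H : ℝ) ^ 2) := by
    intro Y hY
    rw [mem_Ico] at hY
    have h1 := nat_div_bound (d - 1) H (Y + 1) (Nat.succ_pos Y)
    push_cast at h1
    have hY1 : (1 : ℝ) ≤ (Y : ℝ) + 1 := by linarith [(Nat.cast_nonneg Y : (0 : ℝ) ≤ Y)]
    have hYH : (Y : ℝ) + 1 ≤ (A : ℝ) * (H : ℝ) ^ 2 := by exact_mod_cast hY.2
    have h2 : (4 * (2 * ((Y : ℝ) + 1) + 1)) ≤ 12 * ((Y : ℝ) + 1) := by linarith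
    have h3 : ((Y : ℝ) + 1) * (1 / ((Y : ℝ) + 1) ^ (d - 1)) ≤ 1 / ((Y : ℝ) + 1) ^ (d - 3 + 1) := by
      have he : d - 1 = (d - 3 + 1) + 1 := by omega
      rw [he]
      have hY0 : (0 : ℝ) < (Y : ℝ) + 1 := by linarith
      rw [mul_one_div, div_le_div_iff₀ (by positivity) (by positivity), one_mul,
        ← pow_succ']
    push_cast
    calc (4 * (2 * ((Y : ℝ) + 1) + 1)) * (((2 * H / (Y + 1) : ℕ) + 1) ^ (d - 1) * B)
        ≤ (12 * ((Y : ℝ) + 1)) *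
          ((2 ^ (d - 1) * ((2 * H) ^ (d - 1) / ((Y : ℝ) + 1) ^ (d - 1) + 1)) * B) := by
          gcongr
      _ = 12 * 2 ^ (d - 1) * B *
          ((2 * H) ^ (d - 1) * (((Y : ℝ) + 1) * (1 / ((Y : ℝ) + 1) ^ (d - 1))) +
            ((Y : ℝ) + 1)) := by
          field_simp
      _ ≤ _ := by gcongr
  have hsum : ∑ Y ∈ Ico T (A * H ^ 2), (4 * (2 * ((Y : ℝ) + 1) + 1)) *
      ((((2 * H / (Y + 1) + 1) ^ (d - 1) : ℕ) : ℝ) * B) ≤
      12 * 2 ^ (d - 1) * B * ((2 / ((T : ℝ) + 1) ^ (d - 3) + (A : ℝ) ^ 2 / H) *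
        (2 * (H : ℝ) + 1) ^ (d - 1)) := by
    refine (sum_le_sum hterm).trans ?_
    rw [← mul_sum, sum_add_distrib, ← mul_sum, sum_const, nsmul_eq_mul]
    have h1 := sum_tail_pow' (d - 3) (by omega) T (A * H ^ 2)
    have h0 : ((Ico T (A * H ^ 2)).card : ℝ) ≤ (A : ℝ) * (H : ℝ) ^ 2 := by
      rw [Nat.card_Ico]
      have : A * H ^ 2 - T ≤ A * H ^ 2 := Nat.sub_le _ _
      exact_mod_cast this
    have h2 : ((Ico T (A * H ^ 2)).card : ℝ) * ((A : ℝ) * (H : ℝ) ^ 2) ≤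
        (A : ℝ) ^ 2 / H * (2 * (H : ℝ) + 1) ^ (d - 1) := by
      calc ((Ico T (A * H ^ 2)).card : ℝ) * ((A : ℝ) * (H : ℝ) ^ 2)
          ≤ (A : ℝ) * (H : ℝ) ^ 2 * ((A : ℝ) * (H : ℝ) ^ 2) := by gcongr
        _ = (A : ℝ) ^ 2 / H * (H : ℝ) ^ 5 := by field_simp
        _ ≤ (A : ℝ) ^ 2 / H * (H : ℝ) ^ (d - 1) := by
          have := pow_le_pow_right₀ hHr (by omega : 5 ≤ d - 1)
          gcongr
        _ ≤ (A : ℝ) ^ 2 / H * (2 * (H : ℝ) + 1) ^ (d - 1) := by gcongr; linarith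
    have h3 : ((2 * H : ℝ)) ^ (d - 1) ≤ (2 * H + 1) ^ (d - 1) := by gcongr; linarith
    have h6 : (2 * (H : ℝ)) ^ (d - 1) * (∑ Y ∈ Ico T (A * H ^ 2), 1 / (((Y : ℝ) + 1) ^ (d - 3 + 1))) ≤
        (2 * (H : ℝ) + 1) ^ (d - 1) * (2 / ((T : ℝ) + 1) ^ (d - 3)) :=
      mul_le_mul h3 h1 (sum_nonneg fun _ _ => by positivity) (by positivity)
    apply mul_le_mul_of_nonneg_left _ (by positivity)
    linarith
  have hfin : (2 * (H : ℝ) + 1) ^ (MM d - (d + 1) - 1) = B * (2 * (H : ℝ) + 1) ^ (d - 1) := by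
    rw [hB, ← pow_add]
    congr 1
    omega
  rw [hfin]
  refine hsum.trans (le_of_eq ?_)
  ring

section

variable {b : Cf d} {H : ℕ} {c : ℝ} (hH : 1 ≤ H) (hc0 : 0 < c) (hc1 : c ≤ 1)
  (hcb : ∀ t : ℝ, |t| ≤ 2 → c ≤ |TT (co b) d 0 t| ∨ c ≤ |TT (co b) d 1 t|)

include hH hc0 hc1

/-- bound for the fibres -/
lemma MB_le3 {Y₁ L g : ℝ} (hg0 : 0 < g) (hg1 : g ≤ 1) (hL0 : 0 ≤ L) (hlog0 : 0 ≤ Real.log Y₁)
    (hL : Real.log Y₁ ≤ L * Real.sqrt H) :
    (MB d (H / c) H g Y₁ : ℝ) ≤ 8 * s1 d * d * (4 * KN d 1 * L + 1) * (1 / c) ^ 5 * (1 / g) *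
      ((H : ℝ) ^ 5 * Real.sqrt H) := by
  have hH' : (1 : ℝ) ≤ H := by exact_mod_cast hH
  have hH0 : (0 : ℝ) < H := by linarith
  have hcp := c1_pos d
  have hK := KN_one (d := d) (le_refl (1 : ℝ))
  obtain ⟨v, hv⟩ : ∃ v : ℝ, v = 1 / c := ⟨_, rfl⟩
  have hv1 : 1 ≤ v := by rw [hv, le_div_iff₀ hc0]; linarith
  obtain ⟨r, hr⟩ : ∃ r : ℝ, r = 1 / g := ⟨_, rfl⟩
  have hr1 : 1 ≤ r := by rw [hr, le_div_iff₀ hg0]; linarith
  have hgr : g = 1 / r := by rw [hr]; field_simp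
  have hw : (H : ℝ) / c = v * H := by rw [hv]; ring
  rw [← hv, ← hr, hw]
  have hr0 : 0 < r := by linarith
  have hs1 : 1 ≤ s1 d := by
    unfold s1
    have h1 : 1 ≤ KN d 1 ^ 7 := one_le_pow₀ hK
    calc (1 : ℝ) ≤ 12800 * 1 * 1 := by norm_num
      _ ≤ _ := by gcongr
  have hsq : 1 ≤ Real.sqrt H := by
    rw [Real.one_le_sqrt]
    exact hH'
  have hBB : BB d (v * H) H g = s1 d * v ^ 7 * H ^ 8 * r := by
    unfold BB s1
    rw [KN_scale d (v * H), hgr]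
    field_simp
  have h1 : Real.sqrt (BB d (v * H) H g) ≤ s1 d * v ^ 4 * H ^ 4 * r := by
    rw [hBB]
    apply Real.sqrt_le_iff.2
    constructor
    · positivity
    · have h2 : (s1 d * v ^ 4 * (H : ℝ) ^ 4 * r) ^ 2 = s1 d ^ 2 * v ^ 8 * H ^ 8 * r ^ 2 := by ring
      rw [h2]
      have h3 : s1 d ≤ s1 d ^ 2 := le_self_pow₀ hs1 two_ne_zero
      have h4 : v ^ 7 ≤ v ^ 8 := pow_le_pow_right₀ hv1 (by norm_num)
      have h5 : r ≤ r ^ 2 := le_self_pow₀ hr1 two_ne_zero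
      gcongr
  have h2 : (⌊2 * Real.sqrt (BB d (v * H) H g) + 2⌋₊ : ℝ) ≤ 4 * s1 d * v ^ 4 * H ^ 4 * r := by
    refine (Nat.floor_le (by positivity)).trans ?_
    have h3 : 1 ≤ s1 d * v ^ 4 * (H : ℝ) ^ 4 * r := by
      have h4 : 1 ≤ v ^ 4 := one_le_pow₀ hv1
      have h5 : 1 ≤ (H : ℝ) ^ 4 := one_le_pow₀ hH'
      calc (1 : ℝ) = 1 * 1 * 1 * 1 := by norm_num
        _ ≤ _ := by gcongr
    linarith
  have hvH : 1 ≤ v * H := by
    calc (1 : ℝ) = 1 * 1 := by norm_num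
      _ ≤ _ := by gcongr
  have h3 : (⌊4 * KN d (v * H) * Real.log Y₁⌋₊ : ℝ) ≤
      4 * KN d 1 * L * (v * (H * Real.sqrt H)) := by
    refine (Nat.floor_le (by have := KN_one (d := d) hvH; positivity)).trans ?_
    rw [KN_scale d (v * H)]
    calc 4 * (KN d 1 * (v * H)) * Real.log Y₁ ≤ 4 * (KN d 1 * (v * H)) * (L * Real.sqrt H) := by
          gcongr
      _ = _ := by ring
  have h4 : (⌊4 * KN d (v * H) * Real.log Y₁⌋₊ : ℝ) + 1 ≤
      (4 * KN d 1 * L + 1) * (v * (H * Real.sqrt H)) := by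
    have h5 : 1 ≤ v * (H * Real.sqrt H) := by
      calc (1 : ℝ) = 1 * (1 * 1) := by norm_num
        _ ≤ _ := by gcongr
    have h6 : (4 * KN d 1 * L + 1) * (v * (H * Real.sqrt H)) =
      4 * KN d 1 * L * (v * (H * Real.sqrt H)) + v * (H * Real.sqrt H) := by ring
    rw [h6]
    linarith
  unfold MB
  push_cast
  calc (⌊2 * Real.sqrt (BB d (v * H) H g) + 2⌋₊ : ℝ) *
        (d * (2 * ((⌊4 * KN d (v * H) * Real.log Y₁⌋₊ : ℝ) + 1)))
      ≤ (4 * s1 d * v ^ 4 * H ^ 4 * r) *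
        (d * (2 * ((4 * KN d 1 * L + 1) * (v * (H * Real.sqrt H))))) := by gcongr
    _ = _ := by ring

include hcb in
/-- **Middle range.** -/
theorem mid2_tail (hd : 10 ≤ d) {Y₀ Y₁ L g : ℝ} {V : ℕ} (hg0 : 0 < g) (hg2 : 2 * g < 1)
    (hNR : NoRoot (co b) d)
    (hsep : ∀ α ∈ rts (co b) d, ∀ q : ℕ, 1 ≤ q → q ≤ V → ∀ p : ℤ, 2 * g < |q * α - p|)
    (hY0 : 312 * KN d 1 ^ 5 * c1 d * (1 / c) ^ 5 * (1 / g) * (H : ℝ) ^ 6 ≤ Y₀)
    (hL0 : 0 ≤ L) (hlog0 : 0 ≤ Real.log Y₁) (hL : Real.log Y₁ ≤ L * Real.sqrt H)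
    {S : Finset (Cf d)} (hS : S ⊆ QF b H) (hY : ∀ a ∈ S, YT d H Y₀ Y₁ a) :
    (S.card : ℝ) ≤ (d / (V + 1) + d / H +
      8 * s1 d * d * (4 * KN d 1 * L + 1) * (1 / c) ^ 5 * (1 / g) / Real.sqrt H) *
      (2 * (H : ℝ) + 1) ^ (MM d - (d + 1) - 1) := by
  classical
  have hH' : (1 : ℝ) ≤ H := by exact_mod_cast hH
  have hH0 : (0 : ℝ) < H := by linarith
  have hcp := c1_pos d
  have hK := KN_one (d := d) (le_refl (1 : ℝ))
  have hw := w_one hH hc0 hc1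
  have hX : (1 : ℝ) ≤ 2 * (H : ℝ) + 1 := by linarith
  have hM := MM_big (by omega : 4 ≤ d)
  have hs1 : 0 ≤ s1 d := by unfold s1; positivity
  obtain ⟨v, hv⟩ : ∃ v : ℝ, v = 1 / c := ⟨_, rfl⟩
  have hv1 : 1 ≤ v := by rw [hv, le_div_iff₀ hc0]; linarith
  have hwv : (H : ℝ) / c = v * H := by rw [hv]; ring
  obtain ⟨r, hr⟩ : ∃ r : ℝ, r = 1 / g := ⟨_, rfl⟩
  have hr1 : 1 ≤ r := by rw [hr, le_div_iff₀ hg0]; linarith
  have hr0 : 0 < r := by linarith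
  have hgr : g = 1 / r := by rw [hr]; field_simp
  have hG : ∀ a ∈ S, GA (co a) d H (H / c) := fun a ha => GA_QF hH hc0 hc1 hcb (hS ha)
  have hMB := MB_le3 (d := d) (Y₁ := Y₁) (L := L) hH hc0 hc1 hg0 (by linarith) hL0 hlog0 hL
  rw [← hv, ← hr] at hY0 hMB ⊢
  -- first part
  obtain ⟨p2, hp2⟩ : ∃ p2 : ↥(I d), p2.1 = (d - 2, 0) :=
    ⟨⟨(d - 2, 0), by rw [mem_I]; omega⟩, rfl⟩
  obtain ⟨p3, hp3⟩ : ∃ p3 : ↥(I d), p3.1 = (d - 2, 1) :=
    ⟨⟨(d - 2, 1), by rw [mem_I]; omega⟩, rfl⟩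
  have hp23 : p2 ≠ p3 := by
    intro h
    rw [h, hp3] at hp2
    simp at hp2
  have b1 := rel_QF (H := H) (S := S.filter fun a => ¬ GB (co a) d g)
    ((filter_subset _ _).trans hS) {p2, p3} (by
      intro p hp
      rw [mem_insert, mem_singleton] at hp
      rcases hp with rfl | rfl
      · rw [hp2]
        simp only
        omega
      · rw [hp3]
        simp only
        omega) (B := d * (2 * H / (V + 1) + 1)) (by positivity) (by
      intro b' T hT hTb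
      exact fiber_notGB2 (by omega) hNR hg2 hsep hp2 hp3 b' T
        ((hT.trans (filter_subset _ _)).trans hS) hTb (fun a ha => (mem_filter.1 (hT ha)).2))
    (card_pair hp23) (by omega)
  -- second part
  have hKd : 2 * d * c1 d ≤ KN d 1 := by
    have h1 := (KN_ge (d := d) (le_refl (1 : ℝ))).1
    unfold WW at h1
    linarith
  have hpow : ∀ m n : ℕ, m ≤ 5 → n ≤ 6 → v ^ m * (H : ℝ) ^ n ≤ v ^ 5 * r * (H : ℝ) ^ 6 := by
    intro m n hm hn
    have h1 : v ^ m ≤ v ^ 5 := pow_le_pow_right₀ hv1 hm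
    have h2 : (H : ℝ) ^ n ≤ (H : ℝ) ^ 6 := pow_le_pow_right₀ hH' hn
    calc v ^ m * (H : ℝ) ^ n = v ^ m * 1 * (H : ℝ) ^ n := by ring
      _ ≤ _ := by gcongr
  have hYa : 4 * d ^ 2 * c1 d ^ 2 * (H / c) ^ 2 ≤ Y₀ := by
    refine le_trans ?_ hY0
    rw [hwv]
    calc 4 * d ^ 2 * c1 d ^ 2 * (v * H) ^ 2 = 1 * (2 * d * c1 d) ^ 2 * 1 * (v ^ 2 * (H : ℝ) ^ 2) := by
          ring
      _ ≤ 312 * KN d 1 ^ 5 * c1 d * (v ^ 5 * r * (H : ℝ) ^ 6) := by
        have h1 : (2 * d * c1 d) ^ 2 ≤ KN d 1 ^ 5 :=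
          (pow_le_pow_left₀ (by positivity) hKd 2).trans (pow_le_pow_right₀ hK (by norm_num))
        have h2 := hpow 2 2 (by norm_num) (by norm_num)
        gcongr
        norm_num
      _ = _ := by ring
  have hYb : 156 * KN d (H / c) ^ 3 ≤ Y₀ := by
    refine le_trans ?_ hY0
    rw [hwv, KN_scale]
    calc 156 * (KN d 1 * (v * H)) ^ 3 = 156 * KN d 1 ^ 3 * 1 * (v ^ 3 * (H : ℝ) ^ 3) := by ring
      _ ≤ 312 * KN d 1 ^ 5 * c1 d * (v ^ 5 * r * (H : ℝ) ^ 6) := by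
        have h1 : KN d 1 ^ 3 ≤ KN d 1 ^ 5 := pow_le_pow_right₀ hK (by norm_num)
        have h2 := hpow 3 3 (by norm_num) (by norm_num)
        gcongr
        norm_num
      _ = _ := by ring
  have hYc : 312 * KN d (H / c) ^ 5 ≤ g / (c1 d * H) * Y₀ := by
    rw [div_mul_eq_mul_div, le_div_iff₀ (by positivity), hwv, KN_scale, hgr, one_div_mul_eq_div,
      le_div_iff₀ hr0]
    refine le_trans (le_of_eq ?_) hY0
    ring
  have hY2 : 2 * (H : ℝ) < Y₀ := by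
    refine lt_of_lt_of_le ?_ hY0
    calc 2 * (H : ℝ) < 312 * 1 * 1 * (v ^ 0 * (H : ℝ) ^ 1) := by
          rw [pow_zero, pow_one]
          linarith
      _ ≤ 312 * KN d 1 ^ 5 * c1 d * (v ^ 5 * r * (H : ℝ) ^ 6) := by
        have h1 : 1 ≤ KN d 1 ^ 5 := one_le_pow₀ hK
        have h2 := hpow 0 1 (by norm_num) (by norm_num)
        gcongr
      _ = _ := by ring
  have b2 := rel_QF (H := H) (S := S.filter fun a => ¬ ¬ GB (co a) d g)
    ((filter_subset _ _).trans hS) (J4 d) (by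
      intro p hp
      unfold J4 at hp
      rw [mem_filter] at hp
      omega) (B := (MB d (H / c) H g Y₁ : ℝ)) (Nat.cast_nonneg _) (by
      intro b' T hT hTb
      have h1 := mid_fiber (H := H) (g := g) (by omega : 4 ≤ d) hH hw hg0 hYa hYb hYc hY2 b' T
        ((hT.trans (filter_subset _ _)).trans (hS.trans (QF_sub b H))) hTb
        (fun a ha => (hY a (mem_filter.1 (hT ha)).1).nr)
        (fun a ha => hG a (mem_filter.1 (hT ha)).1)
        (fun a ha => not_not.1 (mem_filter.1 (hT ha)).2)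
        (fun a ha => (hY a (mem_filter.1 (hT ha)).1).z)
      exact_mod_cast h1) (card_J4 d) (by omega)
  obtain ⟨X, hXd⟩ : ∃ X : ℝ, X = 2 * (H : ℝ) + 1 := ⟨_, rfl⟩
  rw [← hXd] at b1 b2 hX ⊢
  have hX0 : 0 < X := by linarith
  have hHX : (H : ℝ) ≤ X := by rw [hXd]; linarith
  obtain ⟨Q, hQ⟩ : ∃ Q : ℝ, Q = 8 * s1 d * d * (4 * KN d 1 * L + 1) * v ^ 5 * r := ⟨_, rfl⟩
  have hQ0 : 0 ≤ Q := by rw [hQ]; positivity
  rw [← hQ] at hMB ⊢
  have hsq0 : 0 < Real.sqrt H := Real.sqrt_pos.2 hH0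
  have hsqq : Real.sqrt H * Real.sqrt H = H := Real.mul_self_sqrt hH0.le
  have eM : X ^ (MM d - (d + 1) - 1) = X ^ (MM d - (d + 1) - 2) * X := by
    rw [← pow_succ]
    congr 1
    omega
  have b1' : ((S.filter fun a => ¬ GB (co a) d g).card : ℝ) ≤
      (d / (V + 1) + d / H) * X ^ (MM d - (d + 1) - 1) := by
    refine b1.trans ?_
    rw [eM]
    have h1 : (d : ℝ) * (2 * H / (V + 1) + 1) ≤ (d / (V + 1) + d / H) * X := by
      have h2 : (d : ℝ) * (2 * H / (V + 1) + 1) = d / (V + 1) * (2 * H) + d / H * H := by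
        field_simp
      rw [h2, add_mul]
      have h3 : 2 * (H : ℝ) ≤ X := by rw [hXd]; linarith
      gcongr
    calc (d : ℝ) * (2 * H / (V + 1) + 1) * X ^ (MM d - (d + 1) - 2)
        ≤ ((d / (V + 1) + d / H) * X) * X ^ (MM d - (d + 1) - 2) := by gcongr
      _ = _ := by ring
  have b2' : ((S.filter fun a => ¬ ¬ GB (co a) d g).card : ℝ) ≤
      (Q / Real.sqrt H) * X ^ (MM d - (d + 1) - 1) := by
    refine b2.trans ?_
    have h1 : (H : ℝ) ^ 6 * X ^ (MM d - (d + 1) - (d - 3)) ≤ X ^ (MM d - (d + 1) - 1) := by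
      calc (H : ℝ) ^ 6 * X ^ (MM d - (d + 1) - (d - 3))
          ≤ X ^ 6 * X ^ (MM d - (d + 1) - (d - 3)) := by gcongr
        _ = X ^ (6 + (MM d - (d + 1) - (d - 3))) := by rw [← pow_add]
        _ ≤ _ := by
            apply pow_le_pow_right₀ hX
            omega
    calc (MB d (H / c) H g Y₁ : ℝ) * X ^ (MM d - (d + 1) - (d - 3))
        ≤ (Q * ((H : ℝ) ^ 5 * Real.sqrt H)) * X ^ (MM d - (d + 1) - (d - 3)) := by gcongr
      _ = (Q / Real.sqrt H) * ((H : ℝ) ^ 5 * (Real.sqrt H * Real.sqrt H) *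
          X ^ (MM d - (d + 1) - (d - 3))) := by
          field_simp
      _ = (Q / Real.sqrt H) * ((H : ℝ) ^ 6 * X ^ (MM d - (d + 1) - (d - 3))) := by
          rw [hsqq]
          ring
      _ ≤ _ := by gcongr
  have h5 : ((S.filter fun a => ¬ GB (co a) d g).card : ℝ) +
      ((S.filter fun a => ¬ ¬ GB (co a) d g).card : ℝ) = S.card := by
    have := card_filter_add_card_filter_not (s := S) (fun a => ¬ GB (co a) d g)
    exact_mod_cast this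
  rw [add_mul]
  linarith

end

end Pool.Agent.R414.DU
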