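import Pool.Agent.R414.DU.Tl

set_option autoImplicit false
set_option linter.unusedSectionVars false
set_option maxHeartbeats 1000000

/-! Curves with a prescribed leading form and a point outside of a fixed box. -/

open Finset

namespace Pool.Agent.R414.DU

open Pool.Agent.R414.DN Pool.Agent.R414.DS Pool.Agent.R414.DT

variable {d : ℕ}

lemma C6_nonneg (n r : ℕ) : (0 : ℝ) ≤ 12 * 2 ^ n * (r : ℝ) ^ 2 := by
  positivity

/-- **One chart.** -/
theorem card_y_tail {b : Cf d} (hd : 10 ≤ d) (hL : Lead b) (V : ℕ) : ∃ C : ℝ, 0 ≤ C ∧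
    ∀ T H : ℕ, 1 ≤ H → ∀ S : Finset (Cf d), S ⊆ QF b H →
    (∀ a ∈ S, ∃ x y : ℤ, Fv (co a) d x y = 0 ∧ |x| ≤ |y| ∧ T < y.natAbs) →
    (S.card : ℝ) ≤ (24 * 2 ^ (d - 1) / ((T : ℝ) + 1) ^ (d - 3) + d / (V + 1) + C / Real.sqrt H) *
      (2 * (H : ℝ) + 1) ^ (MM d - (d + 1) - 1) := by
  classical
  obtain ⟨c, hc0, hc1, hcb⟩ := exists_cst (by omega : 1 ≤ d) hL
  obtain ⟨G, N, hLF⟩ := exists_largeF (d := d) (by omega)
  have hNR := noRoot_of_lead (by omega : 2 ≤ d) hL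
  obtain ⟨g, hg0, hg2, hsep⟩ := exists_sep (rts_irr hNR) V
  obtain ⟨A, hA⟩ : ∃ A : ℕ, A = ⌈312 * KN d 1 ^ 5 * c1 d * (1 / c) ^ 5 * (1 / g)⌉₊ := ⟨_, rfl⟩
  have hcp := c1_pos d
  have hK := KN_one (d := d) (le_refl (1 : ℝ))
  have hAle : 312 * KN d 1 ^ 5 * c1 d * (1 / c) ^ 5 * (1 / g) ≤ A := by
    rw [hA]
    exact Nat.le_ceil _
  obtain ⟨v, hv⟩ : ∃ v : ℝ, v = 1 / c := ⟨_, rfl⟩
  have hv1 : 1 ≤ v := by rw [hv, le_div_iff₀ hc0]; linarith
  obtain ⟨r, hr⟩ : ∃ r : ℝ, r = 1 / g := ⟨_, rfl⟩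
  have hr1 : 1 ≤ r := by rw [hr, le_div_iff₀ hg0]; linarith
  have hA1 : (312 : ℝ) ≤ A := by
    refine le_trans ?_ hAle
    rw [← hv, ← hr]
    have h1 : 1 ≤ KN d 1 ^ 5 := one_le_pow₀ hK
    have h2 : 1 ≤ v ^ 5 := one_le_pow₀ hv1
    calc (312 : ℝ) = 312 * 1 * 1 * 1 * 1 := by norm_num
      _ ≤ _ := by gcongr
  obtain ⟨L, hLd⟩ : ∃ L : ℝ, L = G * (Real.log ((d + 1) * MM d) + 2) := ⟨_, rfl⟩
  have hM1 : (1 : ℝ) ≤ (d + 1) * MM d := by
    have h1 : 1 ≤ (d + 1) * MM d := Nat.mul_pos (Nat.succ_pos d) (by have := MM_pos d; omega)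
    exact_mod_cast h1
  have hL0 : 0 ≤ L := by
    rw [hLd]
    have := Real.log_nonneg hM1
    positivity
  have hs1 : 0 ≤ s1 d := by unfold s1; positivity
  obtain ⟨C1, hC1⟩ : ∃ C1 : ℝ, C1 = 12 * 2 ^ (d - 1) * (A : ℝ) ^ 2 := ⟨_, rfl⟩
  obtain ⟨C2, hC2⟩ : ∃ C2 : ℝ, C2 = 3 * A * (d * (4 * d * c1 d * v + 1)) := ⟨_, rfl⟩
  obtain ⟨C3, hC3⟩ : ∃ C3 : ℝ, C3 = 8 * s1 d * d * (4 * KN d 1 * L + 1) * (1 / c) ^ 5 * (1 / g) :=
    ⟨_, rfl⟩
  have hC1' : 0 ≤ C1 := by rw [hC1]; exact C6_nonneg _ _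
  have hv0 : 0 ≤ v := by linarith
  have hr0 : 0 ≤ r := by linarith
  have hC2' : 0 ≤ C2 := by rw [hC2]; positivity
  have hC3' : 0 ≤ C3 := by
    rw [hC3, ← hv, ← hr]
    have h3 : 0 ≤ 4 * KN d 1 * L + 1 := by positivity
    positivity
  have hd0 : (0 : ℝ) ≤ d := Nat.cast_nonneg d
  have hN0 : (0 : ℝ) ≤ N := Nat.cast_nonneg N
  refine ⟨C1 + C2 + d + C3 + d + N, by linarith, fun T₀ H hH S hS hz => ?_⟩
  have hH' : (1 : ℝ) ≤ H := by exact_mod_cast hH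
  have hH0 : (0 : ℝ) < H := by linarith
  have hX : (1 : ℝ) ≤ 2 * (H : ℝ) + 1 := by linarith
  have hM := MM_big (by omega : 4 ≤ d)
  have hlog0 : 0 ≤ Real.log (Yn d H G : ℝ) := Real.log_natCast_nonneg _
  have hlog : Real.log (Yn d H G : ℝ) ≤ L * Real.sqrt H := by
    rw [Real.sqrt_eq_rpow, hLd]
    exact log_Yn_le hH
  have habs : ∀ n : ℤ, |(n : ℝ)| = ((n.natAbs : ℕ) : ℝ) := by
    intro n
    rw [← Int.cast_abs, Int.abs_eq_natAbs, Int.cast_natCast]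
  have hlead : ∀ a ∈ S, Lead a := fun a ha => lead_congr (mem_QF.1 (hS ha)).2 hL
  have hH2 : (H : ℝ) ≤ (H : ℝ) ^ 2 := by nlinarith
  have hsub : S ⊆
      S.filter (fun a => ∃ x y : ℤ, |x| ≤ |y| ∧ T₀ < y.natAbs ∧ y.natAbs ≤ A * H ^ 2 ∧
        Fv (co a) d x y = 0) ∪
      (S.filter (fun a => ∃ x y : ℤ, Fv (co a) d x y = 0 ∧ |x| ≤ |y| ∧
        4 * d ^ 2 * c1 d ^ 2 * (H / c) ^ 2 ≤ |(y : ℝ)| ∧ 2 * H < y.natAbs ∧
        y.natAbs ≤ A * H ^ 6) ∪
      (S.filter (fun a => YT d H (A * (H : ℝ) ^ 6) (Yn d H G) a) ∪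
      (S.filter (fun a => ¬ LinesC a) ∪
      S.filter (fun a => LinesC a ∧ ∃ x y : ℤ, Fv (co a) d x y = 0 ∧
        ((d + 1) * Pool.Agent.H322R2.len (poly a)) ^ G < max x.natAbs y.natAbs)))) := by
    intro a ha
    simp only [mem_union, mem_filter]
    obtain ⟨x, y, h0, hxy, hT0⟩ := hz a ha
    have hxy' : x.natAbs ≤ y.natAbs := by
      have h1 := hxy
      rw [Int.abs_eq_natAbs, Int.abs_eq_natAbs] at h1
      exact_mod_cast h1
    by_cases h1 : y.natAbs ≤ A * H ^ 2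
    · exact Or.inl ⟨ha, x, y, hxy, hT0, h1, h0⟩
    rw [not_le] at h1
    have h1' : (A : ℝ) * (H : ℝ) ^ 2 < (y.natAbs : ℝ) := by exact_mod_cast h1
    by_cases h2 : y.natAbs ≤ A * H ^ 6
    · right; left
      refine ⟨ha, x, y, h0, hxy, ?_, ?_, h2⟩
      · rw [habs]
        refine le_trans ?_ h1'.le
        have hKd : 2 * d * c1 d ≤ KN d 1 := by
          have h1 := (KN_ge (d := d) (le_refl (1 : ℝ))).1
          unfold WW at h1
          linarith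
        have hwv : (H : ℝ) / c = v * H := by rw [hv]; ring
        rw [hwv]
        calc 4 * d ^ 2 * c1 d ^ 2 * (v * H) ^ 2 =
              1 * (2 * d * c1 d) ^ 2 * 1 * v ^ 2 * 1 * (H : ℝ) ^ 2 := by ring
          _ ≤ 312 * KN d 1 ^ 5 * c1 d * v ^ 5 * r * (H : ℝ) ^ 2 := by
            have h1 : (2 * d * c1 d) ^ 2 ≤ KN d 1 ^ 5 :=
              (pow_le_pow_left₀ (by positivity) hKd 2).trans (pow_le_pow_right₀ hK (by norm_num))
            have h2 : v ^ 2 ≤ v ^ 5 := pow_le_pow_right₀ hv1 (by norm_num)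
            gcongr
            norm_num
          _ ≤ A * (H : ℝ) ^ 2 := by
            rw [hv, hr]
            gcongr
      · have h3 : 2 * (H : ℝ) < (y.natAbs : ℝ) := by
          refine lt_of_le_of_lt ?_ h1'
          calc 2 * (H : ℝ) ≤ 312 * (H : ℝ) ^ 2 := by linarith
            _ ≤ _ := by gcongr
        exact_mod_cast h3
    rw [not_le] at h2
    by_cases h3 : y.natAbs ≤ Yn d H G
    · right; right; left
      refine ⟨ha, noRoot_of_lead (by omega) (hlead a ha), x, y, h0, hxy, ?_, ?_⟩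
      · rw [habs]
        exact_mod_cast h2.le
      · rw [habs]
        exact_mod_cast h3
    rw [not_le] at h3
    by_cases h4 : LinesC a
    · right; right; right; right
      refine ⟨ha, h4, x, y, h0, ?_⟩
      refine lt_of_le_of_lt ?_ (lt_of_lt_of_le h3 (le_max_right _ _))
      unfold Yn
      apply Nat.pow_le_pow_left
      exact Nat.mul_le_mul_left _ (len_poly (QF_sub b H (hS ha)))
    · exact Or.inr (Or.inr (Or.inr (Or.inl ⟨ha, h4⟩)))
  have b1 := small_tail (T := T₀) (A := A) (by omega : 6 ≤ d) hH (b := b)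
    (S := S.filter (fun a => ∃ x y : ℤ, |x| ≤ |y| ∧ T₀ < y.natAbs ∧ y.natAbs ≤ A * H ^ 2 ∧
      Fv (co a) d x y = 0))
    ((filter_subset _ _).trans hS) (fun a ha => (mem_filter.1 ha).2)
  rw [← hC1] at b1
  have b2 := mid1_QF hH hc0 hc1 hcb (by omega : 4 ≤ d) hL (X := A * H ^ 6)
    (S := S.filter (fun a => ∃ x y : ℤ, Fv (co a) d x y = 0 ∧ |x| ≤ |y| ∧
        4 * d ^ 2 * c1 d ^ 2 * (H / c) ^ 2 ≤ |(y : ℝ)| ∧ 2 * H < y.natAbs ∧
        y.natAbs ≤ A * H ^ 6)) ((filter_subset _ _).trans hS) (fun a ha => (mem_filter.1 ha).2)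
  have b3 := mid2_tail hH hc0 hc1 hcb hd (Y₀ := A * (H : ℝ) ^ 6) (L := L) (V := V) hg0 hg2 hNR hsep
    (by gcongr) hL0 hlog0 hlog
    (S := S.filter (fun a => YT d H (A * (H : ℝ) ^ 6) (Yn d H G) a))
    ((filter_subset _ _).trans hS) (fun a ha => (mem_filter.1 ha).2)
  rw [← hC3] at b3
  obtain ⟨p2, hp2⟩ : ∃ p2 : ↥(I d), p2.1 = (d - 2, 0) :=
    ⟨⟨(d - 2, 0), by rw [mem_I]; omega⟩, rfl⟩
  obtain ⟨p3, hp3⟩ : ∃ p3 : ↥(I d), p3.1 = (d - 2, 1) :=
    ⟨⟨(d - 2, 1), by rw [mem_I]; omega⟩, rfl⟩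
  have hp23 : p2 ≠ p3 := by
    intro h
    rw [h, hp3] at hp2
    simp at hp2
  have b4 := rel_QF (H := H) (b := b) (S := S.filter (fun a => ¬ LinesC a))
    ((filter_subset _ _).trans hS) {p2, p3} (by
      intro p hp
      rw [mem_insert, mem_singleton] at hp
      rcases hp with rfl | rfl
      · rw [hp2]
        simp only
        omega
      · rw [hp3]
        simp only
        omega) (B := d) (Nat.cast_nonneg _) (by
      intro b' T hT hTb
      have h1 := lines_fiber2 (by omega : 4 ≤ d) hp2 hp3 T b' hTb (fun a ha =>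
        ⟨hlead a (mem_filter.1 (hT ha)).1, (mem_filter.1 (hT ha)).2⟩)
      exact_mod_cast h1) (card_pair hp23) (by omega)
  obtain ⟨q0, hq0⟩ : ∃ q0 : ↥(I d), q0.1 = (0, 0) :=
    ⟨⟨(0, 0), by rw [mem_I]; exact ⟨Nat.zero_le _, le_rfl⟩⟩, rfl⟩
  obtain ⟨q1, hq1⟩ : ∃ q1 : ↥(I d), q1.1 = (1, 0) :=
    ⟨⟨(1, 0), by rw [mem_I]; omega⟩, rfl⟩
  have hq01 : q0 ≠ q1 := by
    intro h
    rw [h, hq1] at hq0
    simp at hq0
  have b5 := rel_QF (H := H) (b := b) (S := S.filter (fun a => LinesC a ∧ ∃ x y : ℤ,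
      Fv (co a) d x y = 0 ∧
        ((d + 1) * Pool.Agent.H322R2.len (poly a)) ^ G < max x.natAbs y.natAbs))
    ((filter_subset _ _).trans hS) {q0, q1} (by
      intro p hp
      rw [mem_insert, mem_singleton] at hp
      rcases hp with rfl | rfl
      · rw [hq0]
        simp only
        omega
      · rw [hq1]
        simp only
        omega) (B := N) (Nat.cast_nonneg _) (by
      intro b' T hT hTb
      have h1 := hLF T b' (by
        intro a ha i hi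
        apply hTb a ha
        intro h3
        rw [mem_insert, mem_singleton] at h3
        apply hi
        rw [mem_filter]
        refine ⟨mem_univ _, ?_⟩
        rcases h3 with h3 | h3
        · rw [h3, hq0]
          show 0 + 4 ≤ d
          omega
        · rw [h3, hq1]
          show 1 + 4 ≤ d
          omega) (fun a ha => by
          have h2 := mem_filter.1 (hT ha)
          exact ⟨hlead a h2.1, h2.2.1, h2.2.2⟩)
      exact_mod_cast h1) (card_pair hq01) (by omega)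
  obtain ⟨X, hXd⟩ : ∃ X : ℝ, X = 2 * (H : ℝ) + 1 := ⟨_, rfl⟩
  rw [← hXd] at b1 b2 b3 b4 b5 hX ⊢
  have hX0 : 0 < X := by linarith
  have hHX : (H : ℝ) ≤ X := by rw [hXd]; linarith
  obtain ⟨Z, hZ⟩ : ∃ Z : ℝ, Z = X ^ (MM d - (d + 1) - 1) := ⟨_, rfl⟩
  have hZ0 : 0 < Z := by rw [hZ]; positivity
  have hsq0 : 0 < Real.sqrt H := Real.sqrt_pos.2 hH0
  have hsq1 : Real.sqrt H ≤ H := by
    rw [Real.sqrt_le_left hH0.le]
    nlinarith
  have hdiv : ∀ t : ℝ, 0 ≤ t → t / H * Z ≤ t / Real.sqrt H * Z := by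
    intro t ht
    gcongr
  have hZ2 : X ^ (MM d - (d + 1) - 2) ≤ Z / H := by
    rw [le_div_iff₀ hH0, hZ]
    have e : MM d - (d + 1) - 1 = (MM d - (d + 1) - 2) + 1 := by omega
    rw [e, pow_succ]
    gcongr
  have b4' : ((S.filter (fun a => ¬ LinesC a)).card : ℝ) ≤ d / Real.sqrt H * Z := by
    refine le_trans ?_ (hdiv _ hd0)
    refine b4.trans ?_
    calc (d : ℝ) * X ^ (MM d - (d + 1) - 2) ≤ d * (Z / H) := by gcongr
      _ = _ := by ring
  have b5' : ((S.filter (fun a => LinesC a ∧ ∃ x y : ℤ,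
      Fv (co a) d x y = 0 ∧
        ((d + 1) * Pool.Agent.H322R2.len (poly a)) ^ G < max x.natAbs y.natAbs)).card : ℝ) ≤
      N / Real.sqrt H * Z := by
    refine le_trans ?_ (hdiv _ hN0)
    refine b5.trans ?_
    calc (N : ℝ) * X ^ (MM d - (d + 1) - 2) ≤ N * (Z / H) := by gcongr
      _ = _ := by ring
  have b2' : ((S.filter (fun a => ∃ x y : ℤ, Fv (co a) d x y = 0 ∧ |x| ≤ |y| ∧
        4 * d ^ 2 * c1 d ^ 2 * (H / c) ^ 2 ≤ |(y : ℝ)| ∧ 2 * H < y.natAbs ∧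
        y.natAbs ≤ A * H ^ 6)).card : ℝ) ≤ C2 / Real.sqrt H * Z := by
    refine le_trans ?_ (hdiv _ hC2')
    refine b2.trans ?_
    have hwv : (H : ℝ) / c = v * H := by rw [hv]; ring
    rw [hwv]
    have h7 : (H : ℝ) ^ 7 * X ^ (MM d - (d + 1) - d) ≤ Z / H := by
      refine le_trans ?_ hZ2
      calc (H : ℝ) ^ 7 * X ^ (MM d - (d + 1) - d)
          ≤ X ^ 7 * X ^ (MM d - (d + 1) - d) := by gcongr
        _ = X ^ (7 + (MM d - (d + 1) - d)) := by rw [← pow_add]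
        _ ≤ _ := by
            apply pow_le_pow_right₀ hX
            omega
    have hH6 : (1 : ℝ) ≤ (H : ℝ) ^ 6 := one_le_pow₀ hH'
    have h8 : 2 * (((A * H ^ 6 : ℕ)) : ℝ) + 1 ≤ 3 * A * (H : ℝ) ^ 6 := by
      push_cast
      nlinarith
    have h9 : (d : ℝ) * (2 * (2 * d * c1 d * (v * H)) + 1) ≤
        d * (4 * d * c1 d * v + 1) * H := by
      have h10 : 0 ≤ (d : ℝ) * ((H : ℝ) - 1) := mul_nonneg (Nat.cast_nonneg _) (by linarith)
      have h11 : d * (4 * d * c1 d * v + 1) * (H : ℝ) =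
        d * (2 * (2 * d * c1 d * (v * H)) + 1) + (d : ℝ) * ((H : ℝ) - 1) := by ring
      rw [h11]
      exact le_add_of_nonneg_right h10
    calc (2 * (((A * H ^ 6 : ℕ)) : ℝ) + 1) * (d * (2 * (2 * d * c1 d * (v * H)) + 1)) *
          X ^ (MM d - (d + 1) - d)
        ≤ (3 * A * (H : ℝ) ^ 6) * (d * (4 * d * c1 d * v + 1) * H) *
          X ^ (MM d - (d + 1) - d) := by gcongr
      _ = C2 * ((H : ℝ) ^ 7 * X ^ (MM d - (d + 1) - d)) := by
          rw [hC2]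
          ring
      _ ≤ C2 * (Z / H) := mul_le_mul_of_nonneg_left h7 hC2'
      _ = _ := by ring
  rw [← hZ] at b1 b3 ⊢
  have hcard := (card_le_card hsub).trans ((card_union_le _ _).trans (add_le_add le_rfl
    ((card_union_le _ _).trans (add_le_add le_rfl
    ((card_union_le _ _).trans (add_le_add le_rfl (card_union_le _ _)))))))
  have hcard' := (Nat.cast_le (α := ℝ)).2 hcard
  simp only [Nat.cast_add] at hcard'
  have i1 := hdiv C1 hC1'
  have i3 := hdiv d hd0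
  have e : (24 * 2 ^ (d - 1) / ((T₀ : ℝ) + 1) ^ (d - 3) + d / (V + 1) +
      (C1 + C2 + d + C3 + d + N) / Real.sqrt H) * Z =
      (24 * 2 ^ (d - 1) / ((T₀ : ℝ) + 1) ^ (d - 3) * Z + C1 / Real.sqrt H * Z) +
      C2 / Real.sqrt H * Z + (d / (V + 1) * Z + d / Real.sqrt H * Z + C3 / Real.sqrt H * Z) +
      d / Real.sqrt H * Z + N / Real.sqrt H * Z := by ring
  have e1 : (24 * 2 ^ (d - 1) / ((T₀ : ℝ) + 1) ^ (d - 3) + C1 / H) * Z =
    24 * 2 ^ (d - 1) / ((T₀ : ℝ) + 1) ^ (d - 3) * Z + C1 / H * Z := by ring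
  have e3 : ((d : ℝ) / (V + 1) + d / H + C3 / Real.sqrt H) * Z =
    d / (V + 1) * Z + d / H * Z + C3 / Real.sqrt H * Z := by ring
  rw [e1] at b1
  rw [e3] at b3
  rw [e]
  have b1'' := b1.trans (add_le_add le_rfl i1)
  have b3'' := b3.trans (add_le_add (add_le_add le_rfl i3) le_rfl)
  refine hcard'.trans ((add_le_add b1'' (add_le_add b2' (add_le_add b3''
    (add_le_add b4' b5')))).trans (le_of_eq ?_))
  ring

end Pool.Agent.R414.DU
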